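import Pool.Agent.Helper32.Bond.Cover

/-!
# The cover theorem (project BOND)

If the multigraph `D` has an abstract dual, `w : E → {1, 2}`, the edges of weight one form an even
set and `D` has no bridges, then there is a family of circuits covering every edge `e` exactly
`w e` times.
-/

set_option autoImplicit false

open scoped Classical symmDiff

namespace Pool.Agent.Bond

namespace MG

variable {Φ Ψ ι : Type}

/-- Step 3: the fat edges form an odd cut (a circuit of the dual): cover by stars of the dual. -/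
theorem step_star {D : MG Φ ι} {H : MG Ψ ι} {E : Finset ι} {w : ι → ℕ} (h : D.Inst E w)
    (hd : Dual D H E) {f0 : ι} (hf0 : w f0 = 2) {g : Φ → Prop}
    (hgF : D.cutSet (E.filter (fun e => w e ≠ 0)) g ⊆ E.filter (fun e => w e = 2))
    (hodd : Odd (D.cutSet (E.filter (fun e => w e ≠ 0)) g).card)
    (hZ : ∀ f, w f = 2 → ∃ Z, D.EvenSet Z ∧ (∀ a ∈ Z, w a ≠ 0) ∧ f ∉ Z ∧
      ∀ e, e ≠ f → w e = 2 → e ∈ Z) : D.ECov w := by
  set S := E.filter (fun e => w e ≠ 0) with hS
  set F := E.filter (fun e => w e = 2) with hF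
  set N := E.filter (fun e => w e = 0) with hN
  set O := E.filter (fun e => w e = 1) with hO
  have mS : ∀ e, e ∈ S ↔ w e ≠ 0 := fun e => by
    rw [hS, Finset.mem_filter]; exact ⟨fun h => h.2, fun h2 => ⟨h.sup e h2, h2⟩⟩
  have mF : ∀ e, e ∈ F ↔ w e = 2 := fun e => by
    rw [hF, Finset.mem_filter]; exact ⟨fun h => h.2, fun h2 => ⟨h.sup e (by omega), h2⟩⟩
  have mO : ∀ e, e ∈ O ↔ w e = 1 := fun e => by
    rw [hO, Finset.mem_filter]; exact ⟨fun h => h.2, fun h2 => ⟨h.sup e (by omega), h2⟩⟩
  have mN : ∀ e, e ∈ N ↔ e ∈ E ∧ w e = 0 := fun e => by rw [hN, Finset.mem_filter]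
  have hFS : F ⊆ S := fun e he => (mS e).2 (by rw [(mF e).1 he]; omega)
  -- uniqueness of odd cuts
  have huniq : ∀ g' : Φ → Prop, D.cutSet S g' ⊆ F → Odd (D.cutSet S g').card →
      D.cutSet S g' = F := by
    intro g' hsub hodd'
    apply Finset.Subset.antisymm hsub
    intro f hf
    by_contra hfK
    obtain ⟨Z, hZe, hZw, hfZ, hZF⟩ := hZ f ((mF f).1 hf)
    have h1 := hZe.card_crosses g'
    have h2 : Z.filter (fun e => D.Crosses e g') = D.cutSet S g' := by
      ext e
      rw [Finset.mem_filter, mem_cutSet]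
      constructor
      · rintro ⟨h2, h3⟩; exact ⟨(mS e).2 (hZw e h2), h3⟩
      · rintro ⟨h2, h3⟩
        have h4 : e ∈ D.cutSet S g' := by rw [mem_cutSet]; exact ⟨h2, h3⟩
        refine ⟨hZF e (fun h5 => hfK (h5 ▸ h4)) ((mF e).1 (hsub h4)), h3⟩
    rw [h2] at h1
    exact (Nat.not_even_iff_odd.2 hodd') h1
  have hFcut : D.cutSet S g = F := huniq g hgF hodd
  have hFodd : Odd F.card := by rw [← hFcut]; exact hodd
  have huniq2 : ∀ g' : Φ → Prop, D.cutSet S g' ⊆ F → (D.cutSet S g').Nonempty →
      D.cutSet S g' = F := by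
    intro g' hsub hne
    by_cases hp : Odd (D.cutSet S g').card
    · exact huniq g' hsub hp
    · exfalso
      have h1 : D.cutSet S (fun v => ¬ (g v ↔ g' v)) = F \ D.cutSet S g' := by
        ext e
        have h2 : e ∈ F ↔ e ∈ S ∧ D.Crosses e g := by rw [← hFcut, mem_cutSet]
        have h3 : e ∈ S → D.Crosses e g' → D.Crosses e g := fun h4 h5 =>
          (h2.1 (hsub (by rw [mem_cutSet]; exact ⟨h4, h5⟩))).2
        rw [Finset.mem_sdiff, h2, mem_cutSet, mem_cutSet]
        simp only [Crosses] at h3 ⊢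
        tauto
      have h2 : D.cutSet S (fun v => ¬ (g v ↔ g' v)) = F := by
        apply huniq
        · rw [h1]; exact Finset.sdiff_subset
        · rw [h1]
          have h3 := Finset.card_sdiff_add_card_eq_card hsub
          rw [Nat.odd_iff] at hp hFodd ⊢
          omega
      rw [h1] at h2
      obtain ⟨e, he⟩ := hne
      have h3 : e ∈ F \ D.cutSet S g' := by rw [h2]; exact hsub he
      exact (Finset.mem_sdiff.1 h3).2 he
  -- the part `A` of `H`
  have hNF : ∀ e ∈ F ∪ N, e ∈ E := by
    intro e he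
    rcases Finset.mem_union.1 he with h1 | h1
    · exact (Finset.mem_filter.1 h1).1
    · exact ((mN e).1 h1).1
  set A : Ψ → Prop := fun v => H.Conn (F ∪ N) (H.s f0) v with hA
  have hAc : ∀ e ∈ F ∪ N, (A (H.s e) ↔ A (H.t e)) := fun e he =>
    not_not.1 (H.conn_not_crosses (F ∪ N) (H.s f0) he)
  have hFA : ∀ e ∈ F, A (H.s e) := by
    set F' := F.filter (fun e => A (H.s e)) with hF'
    have h1 : ∃ g' : Φ → Prop, F' = D.cutSet S g' := by
      apply cut_of_orthogonal D S F' ((Finset.filter_subset _ _).trans hFS)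
      intro Z hZS hZe
      have hZE : Z ⊆ E := hZS.trans (Finset.filter_subset _ _)
      obtain ⟨z, hz⟩ := (hd Z hZE).1 hZe
      set Z' := H.cutSet E (fun v => z v ∧ A v) with hZ'
      have hZ'e : D.EvenSet Z' := (hd Z' (cutSet_subset _ _ _)).2 ⟨_, rfl⟩
      have hZ'S : Z' ⊆ S := by
        intro e he
        rw [mS]
        intro he0
        rw [hZ', mem_cutSet] at he
        have h2 : e ∈ F ∪ N := Finset.mem_union_right _ ((mN e).2 ⟨he.1, he0⟩)
        have h3 := hAc e h2
        have h4 : e ∉ Z := fun h5 => (mS e).1 (hZS h5) he0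
        rw [hz, mem_cutSet] at h4
        have h5 : z (H.s e) ↔ z (H.t e) := by
          by_contra h6; exact h4 ⟨he.1, h6⟩
        apply he.2
        change (z (H.s e) ∧ A (H.s e)) ↔ (z (H.t e) ∧ A (H.t e))
        rw [h3, h5]
      have h2 := hZ'e.card_crosses g
      have h3 : Z'.filter (fun e => D.Crosses e g) = F' ∩ Z := by
        ext e
        have h4 : e ∈ F ↔ e ∈ S ∧ D.Crosses e g := by rw [← hFcut, mem_cutSet]
        rw [Finset.mem_filter, Finset.mem_inter, hF', Finset.mem_filter]
        constructor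
        · rintro ⟨h5, h6⟩
          have h7 : e ∈ F := h4.2 ⟨hZ'S h5, h6⟩
          have h8 := hAc e (Finset.mem_union_left _ h7)
          rw [hZ', mem_cutSet] at h5
          have h9 : A (H.s e) := by
            by_contra h10
            apply h5.2
            have h11 : ¬ A (H.t e) := fun h => h10 (h8.2 h)
            constructor
            · rintro ⟨_, h⟩; exact absurd h h10
            · rintro ⟨_, h⟩; exact absurd h h11
          refine ⟨⟨h7, h9⟩, ?_⟩
          rw [hz, mem_cutSet]
          refine ⟨h5.1, fun h10 => h5.2 ?_⟩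
          change (z (H.s e) ∧ A (H.s e)) ↔ (z (H.t e) ∧ A (H.t e))
          rw [h10, h8]
        · rintro ⟨⟨h5, h6⟩, h7⟩
          rw [hz, mem_cutSet] at h7
          refine ⟨?_, (h4.1 h5).2⟩
          rw [hZ', mem_cutSet]
          refine ⟨h7.1, fun h8 => h7.2 ?_⟩
          have h9 := (hAc e (Finset.mem_union_left _ h5)).1 h6
          constructor
          · intro h10; exact (h8.1 ⟨h10, h6⟩).1
          · intro h10; exact (h8.2 ⟨h10, h9⟩).1
      rw [h3] at h2
      exact h2
    obtain ⟨g', hg'⟩ := h1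
    have h2 : D.cutSet S g' = F := by
      apply huniq2
      · rw [← hg']; exact Finset.filter_subset _ _
      · rw [← hg']
        exact ⟨f0, by rw [hF', Finset.mem_filter]; exact ⟨(mF f0).2 hf0, Conn.refl H _ _⟩⟩
    intro e he
    have h3 : e ∈ F' := by rw [hg', h2]; exact he
    exact (Finset.mem_filter.1 h3).2
  have hFA' : ∀ e ∈ F, A (H.t e) := fun e he =>
    (hAc e (Finset.mem_union_left _ he)).1 (hFA e he)
  -- real edges are not inside `A`
  have hOA : ∀ e ∈ O, ¬ (A (H.s e) ∧ A (H.t e)) := by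
    obtain ⟨z, hz⟩ := (hd O (Finset.filter_subset _ _)).1 h.ev
    have h1 : ∀ v, A v → (z v ↔ z (H.s f0)) := by
      intro v hv
      refine Conn.of_not_crosses (g := fun v => (z v ↔ z (H.s f0))) hv ?_ Iff.rfl
      intro e he
      have h2 : e ∉ O := by
        rw [mO]
        rcases Finset.mem_union.1 he with h3 | h3
        · rw [(mF e).1 h3]; omega
        · rw [((mN e).1 h3).2]; omega
      rw [hz, mem_cutSet] at h2
      have h3 : ¬ H.Crosses e z := fun h4 => h2 ⟨hNF e he, h4⟩
      simp only [Crosses] at h3 ⊢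
      tauto
    rintro e he ⟨h2, h3⟩
    rw [hz, mem_cutSet] at he
    apply he.2
    rw [h1 _ h2, h1 _ h3]
  -- classes
  have hcls : ∀ e ∈ S, ¬ H.Conn N (H.s e) (H.t e) := by
    intro e he hc
    obtain ⟨Z, hZe, heZ, hZw⟩ := h.br e ((mS e).1 he)
    have hZE : Z ⊆ E := fun a ha => h.sup a (hZw a ha)
    obtain ⟨z, hz⟩ := (hd Z hZE).1 hZe
    have h1 : z (H.s e) ↔ z (H.t e) := by
      have h2 : ∀ a ∈ N, ¬ H.Crosses a z := by
        intro a ha h3
        have h4 : a ∈ Z := by rw [hz, mem_cutSet]; exact ⟨((mN a).1 ha).1, h3⟩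
        exact hZw a h4 ((mN a).1 ha).2
      exact ⟨fun h3 => hc.of_not_crosses h2 h3, fun h3 => hc.symm.of_not_crosses h2 h3⟩
    rw [hz, mem_cutSet] at heZ
    exact heZ.2 h1
  -- representatives
  let st : Setoid Ψ := ⟨fun u v => H.Conn N u v, ⟨fun u => Conn.refl H N u,
    fun h => h.symm, fun h h' => h.trans h'⟩⟩
  let rep : Ψ → Ψ := fun v => (Quotient.out (Quotient.mk st v))
  have hrep : ∀ v, H.Conn N (rep v) v := fun v =>
    Quotient.exact (Quotient.out_eq (Quotient.mk st v))
  have hrep2 : ∀ u v, H.Conn N u v → rep u = rep v := by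
    intro u v huv
    have : Quotient.mk st u = Quotient.mk st v := Quotient.sound huv
    simp only [rep, this]
  set T : Finset Ψ := (F.image H.s ∪ F.image H.t).image rep with hT
  have hTm : ∀ v, rep v ∈ T ↔ A v := by
    intro v
    constructor
    · intro h1
      rw [hT, Finset.mem_image] at h1
      obtain ⟨u, hu, huv⟩ := h1
      have h2 : A u := by
        rcases Finset.mem_union.1 hu with h2 | h2
        · obtain ⟨e, he, rfl⟩ := Finset.mem_image.1 h2; exact hFA e he
        · obtain ⟨e, he, rfl⟩ := Finset.mem_image.1 h2; exact hFA' e he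
      have h3 : H.Conn N u v := (hrep u).symm.trans (huv ▸ hrep v)
      exact h2.trans (h3.mono Finset.subset_union_right)
    · intro h1
      change H.Conn (F ∪ N) (H.s f0) v at h1
      induction h1 with
      | refl =>
        rw [hT]
        exact Finset.mem_image_of_mem _ (Finset.mem_union_left _
          (Finset.mem_image_of_mem _ ((mF f0).2 hf0)))
      | @tail u v _ huv ih =>
        obtain ⟨e, he, hj⟩ := huv
        rcases Finset.mem_union.1 he with h2 | h2
        · rw [hT]
          apply Finset.mem_image_of_mem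
          rcases hj with ⟨_, h3⟩ | ⟨h3, _⟩
          · rw [← h3]; exact Finset.mem_union_right _ (Finset.mem_image_of_mem _ h2)
          · rw [← h3]; exact Finset.mem_union_left _ (Finset.mem_image_of_mem _ h2)
        · rw [← hrep2 u v (Conn.joins h2 hj)]; exact ih
  have hTr : ∀ x ∈ T, ∀ v, (H.Conn N x v ↔ rep v = x) := by
    intro x hx v
    rw [hT, Finset.mem_image] at hx
    obtain ⟨u, _, rfl⟩ := hx
    constructor
    · intro h1; exact (hrep2 u v ((hrep u).symm.trans h1)).symm
    · intro h1; rw [← h1]; exact hrep v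
  -- the stars
  have hstar : ∀ x : Ψ, D.EvenSet (H.cutSet E (fun v => H.Conn N x v)) := fun x =>
    (hd _ (cutSet_subset _ _ _)).2 ⟨_, rfl⟩
  have hrest : D.EvenSet (O \ H.cutSet E A) := by
    refine h.ev.sdiff ((hd _ (cutSet_subset _ _ _)).2 ⟨_, rfl⟩) ?_
    intro e he
    rw [mem_cutSet] at he
    by_contra hne
    have hw : w e ≠ 1 := fun h1 => hne ((mO e).2 h1)
    have hle := h.le e
    have h1 : e ∈ F ∪ N := by
      rcases (by omega : w e = 0 ∨ w e = 2) with h1 | h1
      · exact Finset.mem_union_right _ ((mN e).2 ⟨he.1, h1⟩)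
      · exact Finset.mem_union_left _ ((mF e).2 h1)
    exact he.2 (hAc e h1)
  have hsum : D.ECov (fun e => ∑ x ∈ T, if e ∈ H.cutSet E (fun v => H.Conn N x v) then 1 else 0) :=
    ecov_sub (κ := {x // x ∈ T}) (fun x => H.cutSet E (fun v => H.Conn N x.1 v))
      (fun x => hstar x.1) Finset.univ |>.congr fun e => by
        rw [← Finset.sum_coe_sort T]
  refine (hsum.add (ecov_one hrest)).congr fun e => ?_
  have hle := h.le e
  by_cases he0 : w e = 0
  · have h1 : ∀ x, e ∉ H.cutSet E (fun v => H.Conn N x v) := by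
      intro x hx
      rw [mem_cutSet] at hx
      exact H.conn_not_crosses N x ((mN e).2 ⟨hx.1, he0⟩) hx.2
    have h2 : e ∉ O := by rw [mO]; omega
    simp [h1, h2, he0]
  have heS : e ∈ S := (mS e).2 he0
  have heE : e ∈ E := h.sup e he0
  have hne : rep (H.s e) ≠ rep (H.t e) := by
    intro h1
    exact hcls e heS ((hrep (H.s e)).symm.trans (h1 ▸ hrep (H.t e)))
  have h1 : ∑ x ∈ T, (if e ∈ H.cutSet E (fun v => H.Conn N x v) then 1 else 0) =
      (if A (H.s e) then 1 else 0) + (if A (H.t e) then 1 else 0) := by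
    have h2 : ∀ x ∈ T, (if e ∈ H.cutSet E (fun v => H.Conn N x v) then 1 else 0) =
        (if rep (H.s e) = x then 1 else 0) + (if rep (H.t e) = x then 1 else 0) := by
      intro x hx
      simp only [mem_cutSet, Crosses, hTr x hx]
      by_cases h3 : rep (H.s e) = x
      · have h4 : rep (H.t e) ≠ x := fun h5 => hne (h3.trans h5.symm)
        simp [h3, h4, heE]
      · by_cases h4 : rep (H.t e) = x
        · simp [h3, h4, heE]
        · simp [h3, h4]
    rw [Finset.sum_congr rfl h2, Finset.sum_add_distrib, Finset.sum_ite_eq, Finset.sum_ite_eq]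
    simp only [hTm]
  rw [h1]
  rcases (by omega : w e = 1 ∨ w e = 2) with h2 | h2
  · have h3 := hOA e ((mO e).2 h2)
    have h4 : e ∈ O := (mO e).2 h2
    rw [h2]
    simp only [Finset.mem_sdiff, h4, true_and, mem_cutSet, heE, Crosses]
    by_cases h5 : A (H.s e) <;> by_cases h6 : A (H.t e)
    · exact absurd ⟨h5, h6⟩ h3
    · simp [h5, h6]
    · simp [h5, h6]
    · simp [h5, h6]
  · have h3 : e ∈ F := (mF e).2 h2
    have h4 : e ∉ O := by rw [mO]; omega
    have h5 : e ∉ O \ H.cutSet E A := fun h => h4 (Finset.mem_sdiff.1 h).1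
    rw [if_pos (hFA e h3), if_pos (hFA' e h3), if_neg h5, h2]

/-- The cover theorem for instances. -/
theorem cover_main (H : MG Ψ ι) : ∀ (n : ℕ) (D : MG Φ ι) (E : Finset ι) (w : ι → ℕ),
    D.Inst E w → Dual D H E → ∑ a ∈ E, w a = n → D.Cov w := by
  intro n
  induction n using Nat.strong_induction_on with
  | _ n ih =>
    intro D E w h hd hn
    apply ECov.cov
    -- step 0
    by_cases h0 : ∃ Z ⊆ E.filter (fun e => w e ≠ 0), D.EvenSet Z ∧
        E.filter (fun e => w e = 2) ⊆ Z
    · obtain ⟨Z, hZS, hZe, hFZ⟩ := h0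
      refine step_zero h hZe (fun a ha => (Finset.mem_filter.1 (hZS ha)).2) (fun e he => hFZ ?_)
      rw [Finset.mem_filter]; exact ⟨h.sup e (by omega), he⟩
    obtain ⟨g, hg, hodd⟩ := D.odd_cut (E.filter (fun e => w e ≠ 0)) (E.filter (fun e => w e = 2))
      (by
        intro e he
        rw [Finset.mem_filter] at he ⊢
        exact ⟨he.1, by omega⟩) h0
    -- step 1
    by_cases hser : ∃ e f, e ≠ f ∧ w f = 2 ∧ w e ≠ 0 ∧
        ∀ Z, D.EvenSet Z → (∀ a ∈ Z, w a ≠ 0) → e ∈ Z → f ∈ Z
    · obtain ⟨e, f, hef, hwf, hwe, hser⟩ := hser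
      refine step_con h hd hef hwf hwe hser ?_
      intro D' E' w' hI' hd' hlt
      exact ih _ (hn ▸ hlt) D' E' w' hI' hd' rfl
    -- step 2
    have hdel : ∀ f, w f = 2 → D.Cov (Function.update w f 0) := by
      intro f hf
      have hfE : f ∈ E := h.sup f (by omega)
      have hw'f : Function.update w f 0 f = 0 := by simp
      have hw'n : ∀ a, a ≠ f → Function.update w f 0 a = w a := fun a ha => by simp [ha]
      have hI : D.Inst E (Function.update w f 0) := by
        refine ⟨fun a => ?_, fun a ha => ?_, ?_, fun a ha => ?_⟩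
        · by_cases h1 : a = f
          · rw [h1, hw'f]; omega
          · rw [hw'n a h1]; exact h.le a
        · have h1 : a ≠ f := fun h1 => ha (by rw [h1, hw'f])
          rw [hw'n a h1] at ha
          exact h.sup a ha
        · have h1 : E.filter (fun a => Function.update w f 0 a = 1) =
              E.filter (fun a => w a = 1) := by
            ext a
            simp only [Finset.mem_filter]
            by_cases h1 : a = f
            · subst h1; simp [hf]
            · rw [hw'n a h1]
          rw [h1]; exact h.ev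
        · have h1 : a ≠ f := fun h1 => ha (by rw [h1, hw'f])
          rw [hw'n a h1] at ha
          have h2 : ∃ Z, D.EvenSet Z ∧ (∀ a ∈ Z, w a ≠ 0) ∧ a ∈ Z ∧ f ∉ Z := by
            by_contra hno
            apply hser
            refine ⟨a, f, h1, hf, ha, fun Z hZ hZw haZ => ?_⟩
            by_contra hfZ
            exact hno ⟨Z, hZ, hZw, haZ, hfZ⟩
          obtain ⟨Z, hZ, hZw, haZ, hfZ⟩ := h2
          refine ⟨Z, hZ, haZ, fun b hb => ?_⟩
          rw [hw'n b (fun h3 => hfZ (h3 ▸ hb))]
          exact hZw b hb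
      have hlt : ∑ a ∈ E, Function.update w f 0 a < ∑ a ∈ E, w a := by
        refine Finset.sum_lt_sum (fun b _ => ?_) ⟨f, hfE, ?_⟩
        · by_cases h1 : b = f
          · rw [h1, hw'f]; omega
          · rw [hw'n b h1]
        · rw [hw'f, hf]; omega
      exact ih _ (hn ▸ hlt) D E _ hI hd rfl
    have hch : ∀ f, w f = 2 → D.ECov w ∨ ∃ Z, D.EvenSet Z ∧ (∀ a ∈ Z, w a ≠ 0) ∧ f ∉ Z ∧
        ∀ e, e ≠ f → w e = 2 → e ∈ Z := fun f hf =>
      step_chain h hf (hdel f hf) (fun w' hI' hlt => ih _ (hn ▸ hlt) D E w' hI' hd rfl)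
    by_cases hE : D.ECov w
    · exact hE
    -- step 3
    have hf0 : ∃ f0, w f0 = 2 := by
      have h1 : (D.cutSet (E.filter (fun e => w e ≠ 0)) g).Nonempty := by
        rw [← Finset.card_pos]; exact hodd.pos
      obtain ⟨e, he⟩ := h1
      exact ⟨e, (Finset.mem_filter.1 (hg he)).2⟩
    obtain ⟨f0, hf0⟩ := hf0
    refine step_star h hd hf0 hg hodd (fun f hf => ?_)
    rcases hch f hf with h1 | h1
    · exact absurd h1 hE
    · exact h1

end MG

open MG in
/-- **The cover theorem.** -/
theorem cover_theorem {Φ ι : Type} (D : MG Φ ι) (E : Finset ι) (w : ι → ℕ)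
    (hw : ∀ e ∈ E, w e = 1 ∨ w e = 2) (hO : D.EvenSet (E.filter (fun e => w e = 1)))
    (hB : D.Bridgeless E) (hl : ∀ e ∈ E, D.s e ≠ D.t e) (hd : HasDual D E) :
    ∃ (n : ℕ) (C : Fin n → Finset ι), (∀ i, D.IsCirc (C i) ∧ C i ⊆ E) ∧
      ∀ e ∈ E, (Finset.univ.filter (fun i => e ∈ C i)).card = w e := by
  obtain ⟨Ψ, H, hH⟩ := hd
  set w' : ι → ℕ := fun e => if e ∈ E then w e else 0 with hw'
  have hin : ∀ e ∈ E, w' e = w e := fun e he => by simp [hw', he]
  have hout : ∀ e, e ∉ E → w' e = 0 := fun e he => by simp [hw', he]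
  have hI : D.Inst E w' := by
    refine ⟨fun e => ?_, fun e he => ?_, ?_, fun e he => ?_⟩
    · by_cases h : e ∈ E
      · rw [hin e h]; rcases hw e h with h1 | h1 <;> omega
      · rw [hout e h]; omega
    · by_contra h; exact he (hout e h)
    · have h1 : E.filter (fun e => w' e = 1) = E.filter (fun e => w e = 1) := by
        ext e; simp only [Finset.mem_filter]
        exact and_congr_right fun h => by rw [hin e h]
      rw [h1]; exact hO
    · have h : e ∈ E := by by_contra h; exact he (hout e h)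
      obtain ⟨Z, hZE, hZ, heZ⟩ := hB e h
      refine ⟨Z, hZ, heZ, fun a ha => ?_⟩
      rw [hin a (hZE ha)]
      rcases hw a (hZE ha) with h1 | h1 <;> omega
  obtain ⟨κ, hκ, C, hC, hm⟩ := cover_main H _ D E w' hI hH rfl
  have hCE : ∀ i, C i ⊆ E := by
    intro i a ha
    by_contra h
    have h1 := hm a
    rw [hout a h] at h1
    have h2 : (if a ∈ C i then 1 else 0) ≤ mult C a :=
      Finset.single_le_sum (f := fun i => if a ∈ C i then 1 else 0) (fun _ _ => Nat.zero_le _)
        (Finset.mem_univ i)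
    rw [if_pos ha, h1] at h2
    omega
  refine ⟨Fintype.card κ, fun i => C ((Fintype.equivFin κ).symm i), fun i => ⟨?_, hCE _⟩,
    fun e he => ?_⟩
  · exact (hC _).isCirc (fun e he => hl e (hCE _ he))
  · rw [← hin e he, ← hm e, Finset.card_filter]
    exact Equiv.sum_comp (Fintype.equivFin κ).symm (fun i => if e ∈ C i then 1 else 0)

end Pool.Agent.Bond
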