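import Pool.Agent.Helper32.Bond.Fam

/-!
# The steps of the cover theorem (project BOND)
-/

set_option autoImplicit false

open scoped Classical symmDiff

namespace Pool.Agent.Bond

namespace MG

variable {Φ Ψ ι : Type}

/-- an instance of the cover theorem -/
structure Inst (D : MG Φ ι) (E : Finset ι) (w : ι → ℕ) : Prop where
  le : ∀ e, w e ≤ 2
  sup : ∀ e, w e ≠ 0 → e ∈ E
  ev : D.EvenSet (E.filter (fun e => w e = 1))
  br : ∀ e, w e ≠ 0 → ∃ Z, D.EvenSet Z ∧ e ∈ Z ∧ ∀ a ∈ Z, w a ≠ 0

/-- Step 0: the fat edges lie in an even set. -/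
theorem step_zero {D : MG Φ ι} {E : Finset ι} {w : ι → ℕ} (h : D.Inst E w) {Z : Finset ι}
    (hZ : D.EvenSet Z) (hZw : ∀ a ∈ Z, w a ≠ 0) (hF : ∀ e, w e = 2 → e ∈ Z) : D.ECov w := by
  have h1 := (ecov_one hZ).add (ecov_one (hZ.symmDiff h.ev))
  refine h1.congr fun e => ?_
  have hle := h.le e
  have hO : e ∈ E.filter (fun e => w e = 1) ↔ w e = 1 := by
    rw [Finset.mem_filter]
    exact ⟨fun h => h.2, fun h2 => ⟨h.sup e (by omega), h2⟩⟩
  simp only [Finset.mem_symmDiff, hO]
  by_cases he : e ∈ Z
  · have := hZw e he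
    rcases (by omega : w e = 1 ∨ w e = 2) with h2 | h2
    · simp [he, h2]
    · simp [he, h2]
  · have h3 : w e ≠ 2 := fun h => he (hF e h)
    rcases (by omega : w e = 0 ∨ w e = 1) with h2 | h2
    · simp [he, h2]
    · simp [he, h2]

/-! ### contraction -/

/-- identify the ends of `e` -/
noncomputable def con (D : MG Φ ι) (e : ι) : MG Φ ι :=
  D.vmap (fun v => if v = D.t e then D.s e else v)

theorem con_inc (D : MG Φ ι) (e : ι) (hne : D.s e ≠ D.t e) (a : ι) (v : Φ) :
    (D.con e).inc a v = (if v = D.t e then 0 else D.inc a v) +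
      (if v = D.s e then D.inc a (D.t e) else 0) := by
  simp only [inc, con, vmap]
  by_cases h1 : D.s a = D.t e <;> by_cases h2 : D.t a = D.t e <;> by_cases h3 : v = D.t e <;>
    by_cases h4 : v = D.s e <;> simp_all [eq_comm] <;> omega

theorem con_bd (D : MG Φ ι) (e : ι) (hne : D.s e ≠ D.t e) (Z : Finset ι) (v : Φ) :
    (D.con e).bd Z v = (if v = D.t e then 0 else D.bd Z v) +
      (if v = D.s e then D.bd Z (D.t e) else 0) := by
  simp only [bd, con_inc D e hne]
  by_cases h3 : v = D.t e <;> by_cases h4 : v = D.s e <;>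
    simp [h3, h4, Finset.sum_add_distrib]

theorem con_even {D : MG Φ ι} {e : ι} (hne : D.s e ≠ D.t e) {Z : Finset ι}
    (hZ : D.EvenSet Z) : (D.con e).EvenSet Z := by
  rw [evenSet_iff_bd]; intro v
  rw [con_bd D e hne, hZ.bd, hZ.bd]; simp

theorem con_loop {D : MG Φ ι} {e : ι} (hne : D.s e ≠ D.t e) : (D.con e).EvenSet {e} := by
  rw [evenSet_iff_bd]; intro v
  rw [bd_singleton]
  simp only [con, vmap, hne, if_true, if_false]
  exact add_self' _

theorem even_of_con {D : MG Φ ι} {e : ι} (hne : D.s e ≠ D.t e) {Z : Finset ι}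
    (hZ : (D.con e).EvenSet Z) : D.EvenSet Z ∨ D.EvenSet (Z ∆ {e}) := by
  have h1 : ∀ v, v ≠ D.s e → v ≠ D.t e → D.bd Z v = 0 := by
    intro v h2 h3
    have := hZ.bd v
    rw [con_bd D e hne, if_neg h3, if_neg h2, add_zero] at this
    exact this
  have h2 : D.bd Z (D.s e) + D.bd Z (D.t e) = 0 := by
    have := hZ.bd (D.s e)
    rw [con_bd D e hne, if_neg hne, if_pos rfl] at this
    exact this
  rcases bd_zero_or_one (D.bd Z (D.s e)) with h3 | h3
  · left
    rw [evenSet_iff_bd]; intro v
    by_cases h4 : v = D.s e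
    · rw [h4]; exact h3
    by_cases h5 : v = D.t e
    · rw [h3, zero_add] at h2; rw [h5]; exact h2
    exact h1 v h4 h5
  · right
    have h6 : D.bd Z (D.t e) = 1 := by
      rcases bd_zero_or_one (D.bd Z (D.t e)) with h6 | h6
      · rw [h3, h6] at h2; exact absurd h2 (by decide)
      · exact h6
    rw [evenSet_iff_bd]; intro v
    rw [bd_symmDiff, bd_joins (D.joins_self e)]
    by_cases h4 : v = D.s e
    · subst h4; rw [h3, if_pos rfl, if_neg hne, add_zero]; decide
    by_cases h5 : v = D.t e
    · subst h5; rw [h6, if_pos rfl, if_neg h4, zero_add]; decide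
    rw [h1 v h4 h5, if_neg h4, if_neg h5]; decide

theorem mem_symmDiff_singleton_ne {Z : Finset ι} {e a : ι} (h : a ≠ e) :
    a ∈ Z ∆ {e} ↔ a ∈ Z := by
  rw [Finset.mem_symmDiff, Finset.mem_singleton]; tauto

/-- contraction on one side is deletion on the other side -/
theorem dual_con {D : MG Φ ι} {H : MG Ψ ι} {E : Finset ι} (hd : Dual D H E) {e : ι}
    (he : e ∈ E) (hne : D.s e ≠ D.t e) : Dual (D.con e) H (E.erase e) := by
  intro Z hZ
  have hZE : Z ⊆ E := hZ.trans (Finset.erase_subset _ _)
  have heZ : e ∉ Z := fun h => (Finset.mem_erase.1 (hZ h)).1 rfl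
  constructor
  · intro h
    rcases even_of_con hne h with h1 | h1
    · obtain ⟨g, hg⟩ := (hd Z hZE).1 h1
      refine ⟨g, ?_⟩
      ext a
      rw [mem_cutSet, Finset.mem_erase]
      constructor
      · intro ha
        have h2 : a ∈ H.cutSet E g := hg ▸ ha
        rw [mem_cutSet] at h2
        exact ⟨⟨fun h3 => heZ (h3 ▸ ha), h2.1⟩, h2.2⟩
      · rintro ⟨⟨_, h3⟩, h4⟩
        rw [hg, mem_cutSet]; exact ⟨h3, h4⟩
    · have h2 : Z ∆ {e} ⊆ E := by
        intro a ha
        by_cases h3 : a = e
        · rw [h3]; exact he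
        · exact hZE ((mem_symmDiff_singleton_ne h3).1 ha)
      obtain ⟨g, hg⟩ := (hd _ h2).1 h1
      refine ⟨g, ?_⟩
      ext a
      rw [mem_cutSet, Finset.mem_erase]
      constructor
      · intro ha
        have h4 : a ≠ e := fun h3 => heZ (h3 ▸ ha)
        have h5 : a ∈ H.cutSet E g := hg ▸ ((mem_symmDiff_singleton_ne h4).2 ha)
        rw [mem_cutSet] at h5
        exact ⟨⟨h4, h5.1⟩, h5.2⟩
      · rintro ⟨⟨h4, h3⟩, h5⟩
        rw [← mem_symmDiff_singleton_ne h4, hg, mem_cutSet]
        exact ⟨h3, h5⟩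
  · rintro ⟨g, hg⟩
    have h1 : D.EvenSet (H.cutSet E g) := (hd _ (cutSet_subset _ _ _)).2 ⟨g, rfl⟩
    have h2 := con_even hne h1
    by_cases h3 : e ∈ H.cutSet E g
    · have h4 : Z = H.cutSet E g \ {e} := by
        rw [hg]; ext a
        simp only [mem_cutSet, Finset.mem_erase, Finset.mem_sdiff, Finset.mem_singleton]; tauto
      rw [h4]
      exact h2.sdiff (con_loop hne) (by simpa using h3)
    · have h4 : Z = H.cutSet E g := by
        rw [hg]; ext a
        simp only [mem_cutSet, Finset.mem_erase]
        constructor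
        · rintro ⟨⟨_, h5⟩, h6⟩; exact ⟨h5, h6⟩
        · rintro ⟨h5, h6⟩
          exact ⟨⟨fun h7 => h3 (by rw [mem_cutSet]; exact ⟨he, h7 ▸ h6⟩), h5⟩, h6⟩
      rw [h4]; exact h2

/-- Step 1: a series class of fat edges is contracted. -/
theorem step_con {D : MG Φ ι} {H : MG Ψ ι} {E : Finset ι} {w : ι → ℕ} (h : D.Inst E w)
    (hd : Dual D H E) {e f : ι} (hef : e ≠ f) (hwf : w f = 2) (hwe : w e ≠ 0)
    (hser : ∀ Z, D.EvenSet Z → (∀ a ∈ Z, w a ≠ 0) → e ∈ Z → f ∈ Z)
    (ih : ∀ (D' : MG Φ ι) (E' : Finset ι) (w' : ι → ℕ), D'.Inst E' w' → Dual D' H E' →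
      ∑ a ∈ E', w' a < ∑ a ∈ E, w a → D'.Cov w') : D.ECov w := by
  -- series in both directions
  have hser2 : ∀ Z, D.EvenSet Z → (∀ a ∈ Z, w a ≠ 0) → (e ∈ Z ↔ f ∈ Z) := by
    intro Z hZ hZw
    refine ⟨hser Z hZ hZw, fun hf => ?_⟩
    by_contra he
    obtain ⟨Z', hZ', heZ', hZw'⟩ := h.br e hwe
    have hf' : f ∈ Z' := hser Z' hZ' hZw' heZ'
    have h1 := hser (Z ∆ Z') (hZ.symmDiff hZ') (fun a ha => by
      rw [Finset.mem_symmDiff] at ha
      rcases ha with ⟨ha, _⟩ | ⟨ha, _⟩
      · exact hZw a ha
      · exact hZw' a ha) (by rw [Finset.mem_symmDiff]; exact Or.inr ⟨heZ', he⟩)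
    rw [Finset.mem_symmDiff] at h1
    tauto
  have hwe2 : w e = 2 := by
    have hle := h.le e
    by_contra hne
    have h1 : w e = 1 := by omega
    have h2 : e ∈ E.filter (fun e => w e = 1) := by
      rw [Finset.mem_filter]; exact ⟨h.sup e hwe, h1⟩
    have h3 := (hser2 _ h.ev (fun a ha => by
      rw [Finset.mem_filter] at ha; omega)).1 h2
    rw [Finset.mem_filter] at h3
    omega
  have hne : D.s e ≠ D.t e := by
    intro hl
    have h1 : D.EvenSet {e} := by
      rw [evenSet_iff_bd]; intro v
      rw [bd_singleton, hl]; exact add_self' _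
    have h2 := hser {e} h1 (by simpa using hwe) (by simp)
    exact hef (Finset.mem_singleton.1 h2).symm
  -- the contracted instance
  have heE : e ∈ E := h.sup e hwe
  set w' : ι → ℕ := Function.update w e 0 with hw'
  have hw'e : w' e = 0 := by simp [hw']
  have hw'n : ∀ a, a ≠ e → w' a = w a := fun a ha => by simp [hw', ha]
  have hI : (D.con e).Inst (E.erase e) w' := by
    refine ⟨fun a => ?_, fun a ha => ?_, ?_, fun a ha => ?_⟩
    · by_cases h1 : a = e
      · rw [h1, hw'e]; omega
      · rw [hw'n a h1]; exact h.le a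
    · have h1 : a ≠ e := fun h1 => ha (by rw [h1, hw'e])
      rw [hw'n a h1] at ha
      exact Finset.mem_erase.2 ⟨h1, h.sup a ha⟩
    · have h1 : (E.erase e).filter (fun a => w' a = 1) = E.filter (fun a => w a = 1) := by
        ext a
        simp only [Finset.mem_filter, Finset.mem_erase]
        by_cases h1 : a = e
        · subst h1; simp [hwe2]
        · rw [hw'n a h1]; tauto
      rw [h1]
      exact con_even hne h.ev
    · have h1 : a ≠ e := fun h1 => ha (by rw [h1, hw'e])
      rw [hw'n a h1] at ha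
      obtain ⟨Z, hZ, haZ, hZw⟩ := h.br a ha
      by_cases h2 : e ∈ Z
      · refine ⟨Z \ {e}, (con_even hne hZ).sdiff (con_loop hne) (by simpa using h2), ?_, ?_⟩
        · simp [haZ, h1]
        · intro b hb
          rw [Finset.mem_sdiff, Finset.mem_singleton] at hb
          rw [hw'n b hb.2]; exact hZw b hb.1
      · refine ⟨Z, con_even hne hZ, haZ, fun b hb => ?_⟩
        rw [hw'n b (fun h3 => h2 (h3 ▸ hb))]; exact hZw b hb
  have hsum : ∑ a ∈ E.erase e, w' a < ∑ a ∈ E, w a := by
    rw [← Finset.sum_erase_add E w heE, hwe2]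
    have : ∑ a ∈ E.erase e, w' a = ∑ a ∈ E.erase e, w a :=
      Finset.sum_congr rfl fun a ha => hw'n a (Finset.ne_of_mem_erase ha)
    omega
  obtain ⟨κ, hκ, C, hC, hm⟩ := ih _ _ _ hI (dual_con hd heE hne) hsum
  have hCw : ∀ i, ∀ a ∈ C i, w' a ≠ 0 := by
    intro i a ha
    rw [← hm a]
    have : (if a ∈ C i then 1 else 0) ≤ mult C a :=
      Finset.single_le_sum (f := fun i => if a ∈ C i then 1 else 0) (fun _ _ => Nat.zero_le _)
        (Finset.mem_univ i)
    rw [if_pos ha] at this
    omega
  have heC : ∀ i, e ∉ C i := fun i hi => hCw i e hi hw'e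
  -- lift the members
  have hlift : ∀ i, ∃ B : Finset ι, D.EvenSet B ∧ (∀ a, a ≠ e → (a ∈ B ↔ a ∈ C i)) := by
    intro i
    rcases even_of_con hne (hC i).even with h1 | h1
    · exact ⟨C i, h1, fun _ _ => Iff.rfl⟩
    · exact ⟨C i ∆ {e}, h1, fun a ha => mem_symmDiff_singleton_ne ha⟩
  choose B hB hBC using hlift
  have hBw : ∀ i, ∀ a ∈ B i, w a ≠ 0 := by
    intro i a ha
    by_cases h1 : a = e
    · rw [h1]; exact hwe
    · have := hCw i a ((hBC i a h1).1 ha)
      rwa [hw'n a h1] at this
  have hBm : ∀ a, a ≠ e → mult B a = w a := by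
    intro a ha
    rw [← hw'n a ha, ← hm a]
    apply Finset.sum_congr rfl
    intro i _
    simp only [hBC i a ha]
  refine ⟨κ, hκ, B, hB, fun a => ?_⟩
  by_cases ha : a = e
  · subst ha
    have h1 : mult B a = mult B f := by
      apply Finset.sum_congr rfl
      intro i _
      simp only [hser2 (B i) (hB i) (hBw i)]
    rw [h1, hBm f (Ne.symm hef), hwf, hwe2]
  · exact hBm a ha

/-- Step 2: deletion of a fat edge and the chain argument. -/
theorem step_chain {D : MG Φ ι} {E : Finset ι} {w : ι → ℕ} (h : D.Inst E w) {f : ι}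
    (hwf : w f = 2) (hcov : D.Cov (Function.update w f 0))
    (ih : ∀ w' : ι → ℕ, D.Inst E w' → ∑ a ∈ E, w' a < ∑ a ∈ E, w a → D.Cov w') :
    D.ECov w ∨ ∃ Z, D.EvenSet Z ∧ (∀ a ∈ Z, w a ≠ 0) ∧ f ∉ Z ∧
      ∀ e, e ≠ f → w e = 2 → e ∈ Z := by
  have hfE : f ∈ E := h.sup f (by omega)
  have hcov' := hcov
  obtain ⟨κ, hκ, C, hC, hm⟩ := hcov
  set w1 : ι → ℕ := Function.update w f 0 with hw1
  have hw1f : w1 f = 0 := by simp [hw1]
  have hw1n : ∀ a, a ≠ f → w1 a = w a := fun a ha => by simp [hw1, ha]
  have hww : ∀ a, w1 a + (if a = f then 2 else 0) = w a := by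
    intro a
    by_cases ha : a = f
    · subst ha; rw [hw1f, if_pos rfl, hwf]
    · rw [hw1n a ha, if_neg ha, add_zero]
  have hsingle : ∀ (J : Finset κ) (i : κ) (a : ι), i ∈ J → a ∈ C i →
      1 ≤ ∑ i ∈ J, (if a ∈ C i then 1 else 0) := by
    intro J i a hi ha
    have : (if a ∈ C i then 1 else 0) ≤ ∑ i ∈ J, (if a ∈ C i then 1 else 0) :=
      Finset.single_le_sum (f := fun i => if a ∈ C i then 1 else 0) (fun _ _ => Nat.zero_le _) hi
    rwa [if_pos ha] at this
  have hCw : ∀ i, ∀ a ∈ C i, w1 a ≠ 0 := by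
    intro i a ha
    rw [← hm a]
    have := hsingle Finset.univ i a (Finset.mem_univ i) ha
    simp only [mult]; omega
  have hCE : ∀ i, C i ⊆ E := by
    intro i a ha
    have h1 := hCw i a ha
    by_cases h2 : a = f
    · rw [h2]; exact hfE
    · rw [hw1n a h2] at h1; exact h.sup a h1
  by_cases hl : D.s f = D.t f
  · -- a loop
    left
    have h1 : D.EvenSet {f} := by
      rw [evenSet_iff_bd]; intro v
      rw [bd_singleton, hl]; exact add_self' _
    have h2 := (hcov'.ecov.add (ecov_one h1)).add (ecov_one h1)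
    refine h2.congr fun a => ?_
    have := hww a
    simp only [Finset.mem_singleton]
    by_cases ha : a = f
    · simp only [ha, if_true] at this ⊢; omega
    · simp only [ha, if_false] at this ⊢; omega
  -- the ends of f are connected in the rest
  set U : Finset ι := E.filter (fun a => w1 a ≠ 0) with hU
  have hUmem : ∀ a ∈ U, ∃ i, a ∈ C i := by
    intro a ha
    rw [hU, Finset.mem_filter, ← hm a] at ha
    by_contra hno
    push Not at hno
    apply ha.2
    simp [mult, hno]
  have hconn : D.Conn U (D.s f) (D.t f) := by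
    by_contra hno
    obtain ⟨Z, hZ, hfZ, hZw⟩ := h.br f (by omega)
    have h1 := hZ.card_crosses (fun v => D.Conn U (D.s f) v)
    have h2 : Z.filter (fun e => D.Crosses e (fun v => D.Conn U (D.s f) v)) = {f} := by
      ext a
      rw [Finset.mem_filter, Finset.mem_singleton]
      constructor
      · rintro ⟨ha, hcr⟩
        by_contra hne
        refine D.conn_not_crosses U (D.s f) ?_ hcr
        rw [hU, Finset.mem_filter, hw1n a hne]
        exact ⟨h.sup a (hZw a ha), hZw a ha⟩
      · rintro rfl
        refine ⟨hfZ, fun h3 => hno (h3.1 (Conn.refl D U (D.s a)))⟩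
    rw [h2] at h1
    simp at h1
  rcases chain_lemma hC hUmem hconn hl with ⟨J, hJ, hJc⟩ | ⟨col, hcol⟩
  · -- a proper subfamily connects the ends of f
    left
    set w2 : ι → ℕ := fun a => (∑ i ∈ J, if a ∈ C i then 1 else 0) + (if a = f then 2 else 0)
      with hw2
    have hfC : ∀ i, f ∉ C i := fun i hi => hCw i f hi hw1f
    have hsub : ∀ a, (∑ i ∈ J, if a ∈ C i then 1 else 0) ≤ w1 a := by
      intro a
      rw [← hm a]
      exact Finset.sum_le_sum_of_subset (Finset.subset_univ J)
    have hle2 : ∀ a, w2 a ≤ w a := by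
      intro a
      have h1 := hww a
      have h2 := hsub a
      simp only [hw2]; omega
    have hI : D.Inst E w2 := by
      refine ⟨fun a => (hle2 a).trans (h.le a), fun a ha => ?_, ?_, fun a ha => ?_⟩
      · have := hle2 a
        exact h.sup a (by omega)
      · have h1 : E.filter (fun a => w2 a = 1) =
            E.filter (fun e => Odd (∑ i ∈ J, if e ∈ C i then 1 else 0)) := by
          ext a
          simp only [Finset.mem_filter]
          refine and_congr_right fun _ => ?_
          have h3 := (hle2 a).trans (h.le a)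
          by_cases ha : a = f
          · subst ha
            simp only [hw2, hfC, if_true, if_false, Finset.sum_const_zero]
            simp
          · simp only [hw2, ha, if_false, add_zero] at h3 ⊢
            rw [Nat.odd_iff]; omega
        rw [h1]
        exact odd_part C (fun i => (hC i).even) E hCE J
      · by_cases haf : a = f
        · subst haf
          set U' : Finset ι := J.biUnion C with hU'
          have h3 := hJc U' (fun i hi => Finset.subset_biUnion_of_mem C hi)
          obtain ⟨P, hP, hPb⟩ := h3.join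
          have hfP : a ∉ P := by
            intro h4
            obtain ⟨i, _, hi⟩ := Finset.mem_biUnion.1 (hP h4)
            exact hfC i hi
          refine ⟨P ∪ {a}, ?_, by simp, fun b hb => ?_⟩
          · rw [evenSet_iff_bd]; intro v
            rw [D.bd_union_disjoint (by simpa using hfP), hPb v, bd_joins (D.joins_self a)]
            exact add_self' _
          · rcases Finset.mem_union.1 hb with h4 | h4
            · obtain ⟨i, hi, hbi⟩ := Finset.mem_biUnion.1 (hP h4)
              have := hsingle J i b hi hbi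
              simp only [hw2]; omega
            · rw [Finset.mem_singleton.1 h4]; simp [hw2]
        · have h4 : (∑ i ∈ J, if a ∈ C i then 1 else 0) ≠ 0 := by
            simpa [hw2, haf] using ha
          obtain ⟨i, hi, hi2⟩ := Finset.exists_ne_zero_of_sum_ne_zero h4
          have hai : a ∈ C i := by
            by_contra h5; simp [h5] at hi2
          refine ⟨C i, (hC i).even, hai, fun b hb => ?_⟩
          have := hsingle J i b hi hb
          simp only [hw2]; omega
    have hlt : ∑ a ∈ E, w2 a < ∑ a ∈ E, w a := by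
      obtain ⟨i, hi⟩ : ∃ i, i ∉ J := by
        by_contra hno
        push Not at hno
        exact hJ (Finset.eq_univ_of_forall hno)
      obtain ⟨a, ha⟩ := (hC i).nonempty
      refine Finset.sum_lt_sum (fun b _ => hle2 b) ⟨a, hCE i ha, ?_⟩
      have h1 := hww a
      have h2 : (∑ i ∈ J, if a ∈ C i then 1 else 0) + 1 ≤ w1 a := by
        rw [← hm a]
        have h3 : (∑ i ∈ insert i J, if a ∈ C i then 1 else 0) ≤ mult C a :=
          Finset.sum_le_sum_of_subset (Finset.subset_univ _)
        rw [Finset.sum_insert hi, if_pos ha] at h3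
        omega
      simp only [hw2]; omega
    have hc2 := (ih w2 hI hlt).ecov
    have hc3 := ecov_sub C (fun i => (hC i).even) (Finset.univ \ J)
    refine (hc2.add hc3).congr fun a => ?_
    have h1 := hww a
    have h2 : (∑ i ∈ Finset.univ \ J, if a ∈ C i then 1 else 0) +
        (∑ i ∈ J, if a ∈ C i then 1 else 0) = w1 a := by
      rw [← hm a]
      exact Finset.sum_sdiff (Finset.subset_univ J)
    simp only [hw2]; omega
  · -- the chain is everything
    right
    set J : Finset κ := Finset.univ.filter col with hJ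
    refine ⟨_, odd_part C (fun i => (hC i).even) E hCE J, ?_, ?_, ?_⟩
    · intro a ha
      rw [Finset.mem_filter] at ha
      have h1 : (∑ i ∈ J, if a ∈ C i then 1 else 0) ≠ 0 := by
        intro h2; rw [h2] at ha; simp at ha
      obtain ⟨i, hi, hi2⟩ := Finset.exists_ne_zero_of_sum_ne_zero h1
      have hai : a ∈ C i := by
        by_contra h5; simp [h5] at hi2
      have h3 := hCw i a hai
      have h4 := hww a
      omega
    · intro hf
      rw [Finset.mem_filter] at hf
      have h1 : (∑ i ∈ J, if f ∈ C i then 1 else 0) = 0 := by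
        apply Finset.sum_eq_zero
        intro i _
        rw [if_neg (fun hi => hCw i f hi hw1f)]
      rw [h1] at hf
      simp at hf
    · intro e hef hwe
      rw [Finset.mem_filter]
      refine ⟨h.sup e (by omega), ?_⟩
      have h1 : (Finset.univ.filter (fun i => e ∈ C i)).card = 2 := by
        rw [Finset.card_filter]
        have := hm e
        rw [hw1n e hef, hwe] at this
        exact this
      obtain ⟨i, j, hij, hset⟩ := Finset.card_eq_two.1 h1
      have hi : e ∈ C i := by
        have : i ∈ Finset.univ.filter (fun i => e ∈ C i) := by rw [hset]; simp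
        exact (Finset.mem_filter.1 this).2
      have hj : e ∈ C j := by
        have : j ∈ Finset.univ.filter (fun i => e ∈ C i) := by rw [hset]; simp
        exact (Finset.mem_filter.1 this).2
      have hc := hcol i j e hij hi hj
      have h2 : (∑ i ∈ J, if e ∈ C i then 1 else 0) = (J.filter (fun i => e ∈ C i)).card := by
        rw [Finset.card_filter]
      rw [h2]
      have h3 : J.filter (fun i => e ∈ C i) = (Finset.univ.filter (fun i => e ∈ C i)).filter col := by
        ext k; simp only [hJ, Finset.mem_filter, Finset.mem_univ, true_and]; tauto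
      rw [h3, hset]
      by_cases hi2 : col i
      · have hj2 : ¬ col j := fun h4 => hc ⟨fun _ => h4, fun _ => hi2⟩
        have : ({i, j} : Finset κ).filter col = {i} := by
          ext k; simp only [Finset.mem_filter, Finset.mem_insert, Finset.mem_singleton]
          constructor
          · rintro ⟨rfl | rfl, h5⟩
            · rfl
            · exact absurd h5 hj2
          · rintro rfl; exact ⟨Or.inl rfl, hi2⟩
        rw [this]; simp
      · have hj2 : col j := by
          by_contra h4
          exact hc ⟨fun h5 => absurd h5 hi2, fun h5 => absurd h5 h4⟩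
        have : ({i, j} : Finset κ).filter col = {j} := by
          ext k; simp only [Finset.mem_filter, Finset.mem_insert, Finset.mem_singleton]
          constructor
          · rintro ⟨rfl | rfl, h5⟩
            · exact absurd h5 hi2
            · rfl
          · rintro rfl; exact ⟨Or.inr rfl, hj2⟩
        rw [this]; simp

end MG

end Pool.Agent.Bond
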