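import Pool.Agent.Bond.Defs

/-!
# Calculus of even sets of a multigraph (project BOND)

Boundaries mod 2 (`bd`), cuts, connectivity inside an edge set, T-joins, minimal even sets.
-/

set_option autoImplicit false

open scoped Classical symmDiff

namespace Pool.Agent.Bond

namespace MG

variable {Φ Ψ ι : Type}

/-- number of ends of the edge `e` at `v` -/
noncomputable def inc (G : MG Φ ι) (e : ι) (v : Φ) : ℕ :=
  (if G.s e = v then 1 else 0) + (if G.t e = v then 1 else 0)

/-- parity of the degree -/
noncomputable def bd (G : MG Φ ι) (Z : Finset ι) (v : Φ) : ZMod 2 := ∑ e ∈ Z, (G.inc e v : ZMod 2)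

theorem deg_eq_sum (G : MG Φ ι) (Z : Finset ι) (v : Φ) : G.deg Z v = ∑ e ∈ Z, G.inc e v := by
  simp only [deg, inc, Finset.sum_add_distrib, Finset.card_filter]

/-- minimal nonempty even sets -/
def MinEven (G : MG Φ ι) (C : Finset ι) : Prop :=
  C.Nonempty ∧ G.EvenSet C ∧ ∀ Z ⊆ C, G.EvenSet Z → Z = ∅ ∨ Z = C

/-! ### elementary facts -/

theorem bd_eq_deg (G : MG Φ ι) (Z : Finset ι) (v : Φ) : G.bd Z v = (G.deg Z v : ZMod 2) := by
  simp [bd, deg_eq_sum]

theorem evenSet_iff_bd (G : MG Φ ι) (Z : Finset ι) : G.EvenSet Z ↔ ∀ v, G.bd Z v = 0 := by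
  constructor
  · intro h v
    rw [bd_eq_deg]
    exact (ZMod.natCast_eq_zero_iff_even).2 (h v)
  · intro h v
    have := h v
    rw [bd_eq_deg] at this
    exact (ZMod.natCast_eq_zero_iff_even).1 this

theorem EvenSet.bd {G : MG Φ ι} {Z : Finset ι} (h : G.EvenSet Z) (v : Φ) : G.bd Z v = 0 :=
  (G.evenSet_iff_bd Z).1 h v

@[simp] theorem bd_empty (G : MG Φ ι) (v : Φ) : G.bd ∅ v = 0 := by simp [MG.bd]

theorem bd_singleton (G : MG Φ ι) (e : ι) (v : Φ) :
    G.bd {e} v = (if G.s e = v then 1 else 0) + (if G.t e = v then 1 else 0) := by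
  simp [MG.bd, inc]

theorem evenSet_empty (G : MG Φ ι) : G.EvenSet ∅ := (G.evenSet_iff_bd ∅).2 fun v => by simp

theorem two_eq_zero' : (2 : ZMod 2) = 0 := by decide

theorem add_self' (x : ZMod 2) : x + x = 0 := by
  rw [← two_mul, two_eq_zero', zero_mul]

theorem bd_union_disjoint (G : MG Φ ι) {A B : Finset ι} (h : Disjoint A B) (v : Φ) :
    G.bd (A ∪ B) v = G.bd A v + G.bd B v := by
  simp [MG.bd, Finset.sum_union h]

theorem bd_sdiff (G : MG Φ ι) {A B : Finset ι} (h : B ⊆ A) (v : Φ) :
    G.bd (A \ B) v = G.bd A v + G.bd B v := by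
  have h1 := G.bd_union_disjoint (Finset.sdiff_disjoint : Disjoint (A \ B) B) v
  rw [Finset.sdiff_union_of_subset h] at h1
  rw [h1, add_assoc, add_self', add_zero]

theorem bd_symmDiff (G : MG Φ ι) (A B : Finset ι) (v : Φ) :
    G.bd (A ∆ B) v = G.bd A v + G.bd B v := by
  have h1 : A ∆ B = (A \ B) ∪ (B \ A) := by
    ext e; simp [Finset.mem_symmDiff]
  have h2 : Disjoint (A \ B) (B \ A) := by
    rw [Finset.disjoint_left]; intro e he he'
    simp only [Finset.mem_sdiff] at he he'; exact he.2 he'.1
  rw [h1, G.bd_union_disjoint h2]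
  have h3 : G.bd A v = G.bd (A \ B) v + G.bd (A ∩ B) v := by
    rw [← G.bd_union_disjoint (Finset.disjoint_sdiff_inter A B), Finset.sdiff_union_inter]
  have h4 : G.bd B v = G.bd (B \ A) v + G.bd (A ∩ B) v := by
    rw [Finset.inter_comm, ← G.bd_union_disjoint (Finset.disjoint_sdiff_inter B A),
      Finset.sdiff_union_inter]
  rw [h3, h4]
  have h5 : G.bd (A ∩ B) v + G.bd (A ∩ B) v = 0 := add_self' _
  linear_combination -h5

theorem EvenSet.symmDiff {G : MG Φ ι} {A B : Finset ι} (hA : G.EvenSet A) (hB : G.EvenSet B) :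
    G.EvenSet (A ∆ B) :=
  (G.evenSet_iff_bd _).2 fun v => by rw [bd_symmDiff, hA.bd v, hB.bd v, add_zero]

theorem EvenSet.union {G : MG Φ ι} {A B : Finset ι} (hA : G.EvenSet A) (hB : G.EvenSet B)
    (h : Disjoint A B) : G.EvenSet (A ∪ B) :=
  (G.evenSet_iff_bd _).2 fun v => by rw [G.bd_union_disjoint h, hA.bd v, hB.bd v, add_zero]

theorem EvenSet.sdiff {G : MG Φ ι} {A B : Finset ι} (hA : G.EvenSet A) (hB : G.EvenSet B)
    (h : B ⊆ A) : G.EvenSet (A \ B) :=
  (G.evenSet_iff_bd _).2 fun v => by rw [G.bd_sdiff h, hA.bd v, hB.bd v, add_zero]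

theorem Joins.symm {G : MG Φ ι} {e : ι} {a b : Φ} (h : G.Joins e a b) : G.Joins e b a := Or.symm h

theorem joins_self (G : MG Φ ι) (e : ι) : G.Joins e (G.s e) (G.t e) := Or.inl ⟨rfl, rfl⟩

theorem bd_joins {G : MG Φ ι} {e : ι} {x y : Φ} (hj : G.Joins e x y) (w : Φ) : G.bd {e} w =
    (if w = x then 1 else 0) + (if w = y then 1 else 0) := by
  rw [bd_singleton]
  rcases hj with ⟨h5, h6⟩ | ⟨h5, h6⟩
  · simp only [h5, h6, eq_comm]
  · simp only [h5, h6, eq_comm]; rw [add_comm]

/-! ### cuts -/

/-- the edge `e` crosses the vertex predicate `g` -/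
def Crosses (G : MG Φ ι) (e : ι) (g : Φ → Prop) : Prop := ¬ (g (G.s e) ↔ g (G.t e))

@[simp] theorem mem_cutSet (H : MG Ψ ι) (E : Finset ι) (g : Ψ → Prop) (e : ι) :
    e ∈ H.cutSet E g ↔ e ∈ E ∧ H.Crosses e g := by
  simp [cutSet, Crosses]

theorem cutSet_subset (H : MG Ψ ι) (E : Finset ι) (g : Ψ → Prop) : H.cutSet E g ⊆ E :=
  Finset.filter_subset _ _

/-- double counting: degrees over `g` against the cut of `g` (over any finite set of vertices
containing all ends) -/
theorem sum_bd (G : MG Φ ι) (Z : Finset ι) (g : Φ → Prop) (T : Finset Φ)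
    (hT : ∀ e ∈ Z, G.s e ∈ T ∧ G.t e ∈ T) :
    ∑ v ∈ T.filter g, G.bd Z v = ((Z.filter (fun e => G.Crosses e g)).card : ZMod 2) := by
  have h1 : ∑ v ∈ T.filter g, G.bd Z v =
      ∑ e ∈ Z, ∑ v ∈ T.filter g, (G.inc e v : ZMod 2) := by
    simp only [MG.bd]; exact Finset.sum_comm
  rw [h1]
  have h2 : ∀ e ∈ Z, ∑ v ∈ T.filter g, (G.inc e v : ZMod 2) =
      if G.Crosses e g then 1 else 0 := by
    intro e he
    obtain ⟨hs, ht⟩ := hT e he
    simp only [inc, Nat.cast_add, Nat.cast_ite, Nat.cast_one, Nat.cast_zero,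
      Finset.sum_add_distrib, Finset.sum_ite_eq, Finset.mem_filter, hs, ht, true_and, Crosses]
    by_cases h3 : g (G.s e) <;> by_cases h4 : g (G.t e) <;> simp [h3, h4]
    exact add_self' 1
  rw [Finset.sum_congr rfl h2, Finset.sum_ite, Finset.sum_const_zero, add_zero,
    Finset.sum_const, nsmul_eq_mul, mul_one]

theorem sum_bd_all (G : MG Φ ι) (Z : Finset ι) (T : Finset Φ)
    (hT : ∀ e ∈ Z, G.s e ∈ T ∧ G.t e ∈ T) : ∑ v ∈ T, G.bd Z v = 0 := by
  have h1 : ∑ v ∈ T, G.bd Z v = ∑ e ∈ Z, ∑ v ∈ T, (G.inc e v : ZMod 2) := by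
    simp only [MG.bd]; exact Finset.sum_comm
  rw [h1]
  apply Finset.sum_eq_zero
  intro e he
  obtain ⟨hs, ht⟩ := hT e he
  simp only [inc, Nat.cast_add, Nat.cast_ite, Nat.cast_one, Nat.cast_zero,
    Finset.sum_add_distrib, Finset.sum_ite_eq, hs, ht, if_true]
  exact add_self' 1

theorem card_crosses (G : MG Φ ι) (Z : Finset ι) (g : Φ → Prop)
    (h : ∀ v, g v → G.bd Z v = 0) : Even (Z.filter (fun e => G.Crosses e g)).card := by
  have h1 := G.sum_bd Z g (Z.image G.s ∪ Z.image G.t) (fun e he =>
    ⟨Finset.mem_union_left _ (Finset.mem_image_of_mem _ he),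
      Finset.mem_union_right _ (Finset.mem_image_of_mem _ he)⟩)
  rw [Finset.sum_eq_zero (fun v hv => h v (Finset.mem_filter.1 hv).2)] at h1
  exact (ZMod.natCast_eq_zero_iff_even).1 h1.symm

theorem EvenSet.card_crosses {G : MG Φ ι} {Z : Finset ι} (h : G.EvenSet Z) (g : Φ → Prop) :
    Even (Z.filter (fun e => G.Crosses e g)).card :=
  G.card_crosses Z g (fun v _ => h.bd v)

/-! ### reachability -/

theorem Conn.refl (G : MG Φ ι) (S : Finset ι) (u : Φ) : G.Conn S u u :=
  Relation.ReflTransGen.refl

theorem Conn.trans {G : MG Φ ι} {S : Finset ι} {u v w : Φ} (h : G.Conn S u v)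
    (h' : G.Conn S v w) : G.Conn S u w := Relation.ReflTransGen.trans h h'

theorem Conn.joins {G : MG Φ ι} {S : Finset ι} {e : ι} (he : e ∈ S) {a b : Φ}
    (h : G.Joins e a b) : G.Conn S a b := Relation.ReflTransGen.single ⟨e, he, h⟩

theorem Conn.edge {G : MG Φ ι} {S : Finset ι} {e : ι} (he : e ∈ S) :
    G.Conn S (G.s e) (G.t e) := Conn.joins he (G.joins_self e)

theorem Conn.symm {G : MG Φ ι} {S : Finset ι} {u v : Φ} (h : G.Conn S u v) : G.Conn S v u := by
  induction h with
  | refl => exact Conn.refl G S u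
  | tail _ hbc ih =>
    obtain ⟨e, he, hj⟩ := hbc
    exact (Conn.joins he hj.symm).trans ih

theorem Conn.mono {G : MG Φ ι} {S T : Finset ι} (h : S ⊆ T) {u v : Φ} (h' : G.Conn S u v) :
    G.Conn T u v := by
  induction h' with
  | refl => exact Relation.ReflTransGen.refl
  | tail _ hbc ih =>
    obtain ⟨e, he, hj⟩ := hbc
    exact ih.tail ⟨e, h he, hj⟩

/-- the set reached from `u` is crossed by no edge of `S` -/
theorem conn_not_crosses (G : MG Φ ι) (S : Finset ι) (u : Φ) {e : ι} (he : e ∈ S) :
    ¬ G.Crosses e (fun v => G.Conn S u v) := by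
  intro h
  apply h
  constructor
  · intro h1; exact Conn.trans h1 (Conn.edge he)
  · intro h1; exact Conn.trans h1 (Conn.edge he).symm

/-- a predicate crossed by no edge of `S` is closed under reachability -/
theorem Conn.of_not_crosses {G : MG Φ ι} {S : Finset ι} {u v : Φ} (h : G.Conn S u v)
    {g : Φ → Prop} (hX : ∀ e ∈ S, ¬ G.Crosses e g) (hu : g u) : g v := by
  induction h with
  | refl => exact hu
  | tail _ hbc ih =>
    obtain ⟨e, he, hj⟩ := hbc
    have h1 : g (G.s e) ↔ g (G.t e) := not_not.1 (hX e he)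
    rcases hj with ⟨ha, hb⟩ | ⟨ha, hb⟩
    · rw [← hb, ← h1, ha]; exact ih
    · rw [← ha, h1, hb]; exact ih

/-- two vertices joined inside `S` are the odd vertices of some subset of `S` -/
theorem Conn.join {G : MG Φ ι} {S : Finset ι} {u v : Φ} (h : G.Conn S u v) :
    ∃ P ⊆ S, ∀ w, G.bd P w = (if w = u then 1 else 0) + (if w = v then 1 else 0) := by
  induction h with
  | refl =>
    refine ⟨∅, Finset.empty_subset _, fun w => ?_⟩
    rw [bd_empty, add_self']
  | @tail b c _ hbc ih =>
    obtain ⟨P, hP, hb⟩ := ih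
    obtain ⟨e, he, hj⟩ := hbc
    refine ⟨P ∆ {e}, ?_, fun w => ?_⟩
    · intro x hx
      rw [Finset.mem_symmDiff] at hx
      rcases hx with ⟨hx, _⟩ | ⟨hx, _⟩
      · exact hP hx
      · rw [Finset.mem_singleton.1 hx]; exact he
    · rw [bd_symmDiff, hb w, bd_joins hj]
      have h2 : ((if w = b then 1 else 0) + (if w = b then 1 else 0) : ZMod 2) = 0 := add_self' _
      linear_combination h2

/-! ### minimal even sets -/

theorem MinEven.even {G : MG Φ ι} {C : Finset ι} (h : G.MinEven C) : G.EvenSet C := h.2.1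
theorem MinEven.nonempty {G : MG Φ ι} {C : Finset ι} (h : G.MinEven C) : C.Nonempty := h.1

/-- every even set is a disjoint union of minimal even sets -/
theorem EvenSet.decomp {G : MG Φ ι} : ∀ {Z : Finset ι}, G.EvenSet Z →
    ∃ L : List (Finset ι), (∀ C ∈ L, G.MinEven C) ∧
      ∀ e, (L.countP (fun C => decide (e ∈ C))) = if e ∈ Z then 1 else 0 := by
  intro Z
  induction hn : Z.card using Nat.strong_induction_on generalizing Z with
  | _ n ih =>
    intro hZ
    by_cases h0 : Z = ∅
    · subst h0
      exact ⟨[], by simp, by simp⟩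
    by_cases hc : G.MinEven Z
    · refine ⟨[Z], by simpa using hc, fun e => ?_⟩
      simp [List.countP_cons]
    · have h1 : ∃ A ⊆ Z, G.EvenSet A ∧ A ≠ ∅ ∧ A ≠ Z := by
        by_contra hcon
        push Not at hcon
        apply hc
        refine ⟨Finset.nonempty_iff_ne_empty.2 h0, hZ, fun A hA hAe => ?_⟩
        by_cases h2 : A = ∅
        · exact Or.inl h2
        · exact Or.inr (hcon A hA hAe (Finset.nonempty_iff_ne_empty.2 h2))
      obtain ⟨A, hA, hAe, hA0, hAZ⟩ := h1
      have hlt : A.card < n := by
        rw [← hn]; exact Finset.card_lt_card (Finset.ssubset_iff_subset_ne.2 ⟨hA, hAZ⟩)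
      have hlt2 : (Z \ A).card < n := by
        rw [← hn]
        apply Finset.card_lt_card
        refine Finset.sdiff_ssubset hA (Finset.nonempty_iff_ne_empty.2 hA0)
      obtain ⟨L1, hL1, hc1⟩ := ih _ hlt rfl hAe
      obtain ⟨L2, hL2, hc2⟩ := ih _ hlt2 rfl (hZ.sdiff hAe hA)
      refine ⟨L1 ++ L2, ?_, fun e => ?_⟩
      · intro C hC
        rcases List.mem_append.1 hC with h | h
        · exact hL1 C h
        · exact hL2 C h
      · rw [List.countP_append, hc1, hc2]
        by_cases he : e ∈ A
        · simp [he, hA he]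
        · simp [he]

/-- minimal even sets are connected -/
theorem MinEven.conn {G : MG Φ ι} {C : Finset ι} (h : G.MinEven C) {x y : Φ} (hx : x ∈ G.vs C)
    (hy : y ∈ G.vs C) : G.Conn C x y := by
  set A : Finset ι := C.filter (fun e => G.Conn C x (G.s e)) with hA
  have key : ∀ e ∈ C, (G.Conn C x (G.s e) ↔ G.Conn C x (G.t e)) := fun e he =>
    ⟨fun h1 => h1.trans (Conn.edge he), fun h1 => h1.trans (Conn.edge he).symm⟩
  have hAe : G.EvenSet A := by
    rw [evenSet_iff_bd]
    intro v
    by_cases hv : G.Conn C x v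
    · have h1 : G.bd A v = G.bd C v := by
        simp only [MG.bd, hA, Finset.sum_filter]
        apply Finset.sum_congr rfl
        intro e he
        split_ifs with h2
        · rfl
        · have h3 : G.s e ≠ v := fun h4 => h2 (h4 ▸ hv)
          have h4 : G.t e ≠ v := fun h5 => h2 ((key e he).2 (h5 ▸ hv))
          simp [inc, h3, h4]
      rw [h1]; exact h.even.bd v
    · simp only [MG.bd, hA, Finset.sum_filter]
      apply Finset.sum_eq_zero
      intro e he
      split_ifs with h2
      · have h3 : G.s e ≠ v := fun h4 => hv (h4 ▸ h2)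
        have h4 : G.t e ≠ v := fun h5 => hv (h5 ▸ (key e he).1 h2)
        simp [inc, h3, h4]
      · rfl
  have hAne : A ≠ ∅ := by
    obtain ⟨e, he, h1⟩ := hx
    have h2 : e ∈ A := by
      rw [hA, Finset.mem_filter]
      refine ⟨he, ?_⟩
      rcases h1 with h1 | h1
      · rw [h1]; exact Conn.refl G C x
      · rw [key e he, h1]; exact Conn.refl G C x
    intro h3; rw [h3] at h2; simp at h2
  have hAC : A = C := by
    rcases h.2.2 A (Finset.filter_subset _ _) hAe with h1 | h1
    · exact absurd h1 hAne
    · exact h1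
  obtain ⟨e, he, h1⟩ := hy
  have h2 : G.Conn C x (G.s e) := by
    have : e ∈ A := hAC ▸ he
    exact (Finset.mem_filter.1 this).2
  rcases h1 with h1 | h1
  · rw [← h1]; exact h2
  · rw [← h1]; exact (key e he).1 h2

/-- a set of edges with boundary `u + v` (`u ≠ v`) without nonempty even subset is a path -/
theorem isPath_of_minimal {G : MG Φ ι} : ∀ {W : Finset ι} {u v : Φ}, u ≠ v →
    (∀ w, G.bd W w = (if w = u then 1 else 0) + (if w = v then 1 else 0)) →
    (∀ Z ⊆ W, G.EvenSet Z → Z = ∅) → G.IsPath W u v := by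
  intro W
  induction hn : W.card using Nat.strong_induction_on generalizing W with
  | _ n ih =>
    intro u v huv hbd hmin
    -- an edge at `u`
    have h1 : ∃ e ∈ W, ∃ w, G.Joins e u w := by
      by_contra hno
      push Not at hno
      have h2 : G.bd W u = 0 := by
        apply Finset.sum_eq_zero
        intro e he
        have h3 : G.s e ≠ u := fun h4 => hno e he (G.t e) (Or.inl ⟨h4, rfl⟩)
        have h4 : G.t e ≠ u := fun h4 => hno e he (G.s e) (Or.inr ⟨rfl, h4⟩)
        simp [inc, h3, h4]
      rw [hbd u] at h2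
      simp [huv] at h2
    obtain ⟨e, he, w, hj⟩ := h1
    have hwu : u ≠ w := by
      rintro rfl
      have h2 : G.EvenSet {e} := (G.evenSet_iff_bd _).2 fun x => by rw [bd_joins hj, add_self']
      have := hmin {e} (by simpa using he) h2
      simp at this
    set W' := W.erase e with hW'
    have hins : insert e W' = W := Finset.insert_erase he
    have heW' : e ∉ W' := Finset.notMem_erase e W
    have hbd' : ∀ x, G.bd W' x = (if x = w then 1 else 0) + (if x = v then 1 else 0) := by
      intro x
      have h2 : W' = W \ {e} := by rw [hW', Finset.sdiff_singleton_eq_erase]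
      rw [h2, G.bd_sdiff (by simpa using he), hbd x, bd_joins hj]
      have h3 : ((if x = u then 1 else 0) + (if x = u then 1 else 0) : ZMod 2) = 0 := add_self' _
      linear_combination h3
    have hmin' : ∀ Z ⊆ W', G.EvenSet Z → Z = ∅ := fun Z hZ =>
      hmin Z (hZ.trans (Finset.erase_subset _ _))
    have huW' : u ∉ G.vs W' := by
      rintro ⟨a, haW', hau⟩
      -- join u to w inside W'
      have haW : a ∈ W := Finset.mem_of_mem_erase haW'
      -- the component of u in W'
      by_cases hc : G.Conn W' u w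
      · obtain ⟨P, hP, hPb⟩ := hc.join
        have heP : e ∉ P := fun h2 => heW' (hP h2)
        have h2 : G.EvenSet (P ∪ {e}) := by
          rw [evenSet_iff_bd]; intro x
          rw [G.bd_union_disjoint (by simpa using heP), hPb x, bd_joins hj]
          have h3 : ((if x = u then 1 else 0) + (if x = u then 1 else 0) : ZMod 2) = 0 :=
            add_self' _
          have h4 : ((if x = w then 1 else 0) + (if x = w then 1 else 0) : ZMod 2) = 0 :=
            add_self' _
          linear_combination h3 + h4
        have h3 := hmin (P ∪ {e}) (by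
          intro x hx
          rcases Finset.mem_union.1 hx with h3 | h3
          · exact Finset.erase_subset _ _ (hP h3)
          · rw [Finset.mem_singleton.1 h3]; exact he) h2
        have h4 : e ∈ P ∪ {e} := Finset.mem_union_right _ (Finset.mem_singleton_self e)
        rw [h3] at h4; simp at h4
      · -- the edges of W' in the component of u
        set A : Finset ι := W'.filter (fun b => G.Conn W' u (G.s b)) with hA
        have key : ∀ b ∈ W', (G.Conn W' u (G.s b) ↔ G.Conn W' u (G.t b)) := fun b hb =>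
          ⟨fun h1 => h1.trans (Conn.edge hb), fun h1 => h1.trans (Conn.edge hb).symm⟩
        have hAb : ∀ x, G.bd A x = if G.Conn W' u x then G.bd W' x else 0 := by
          intro x
          by_cases hx : G.Conn W' u x
          · rw [if_pos hx]
            simp only [MG.bd, hA, Finset.sum_filter]
            apply Finset.sum_congr rfl
            intro b hb
            split_ifs with h2
            · rfl
            · have h3 : G.s b ≠ x := fun h4 => h2 (h4 ▸ hx)
              have h4 : G.t b ≠ x := fun h5 => h2 ((key b hb).2 (h5 ▸ hx))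
              simp [inc, h3, h4]
          · rw [if_neg hx]
            simp only [MG.bd, hA, Finset.sum_filter]
            apply Finset.sum_eq_zero
            intro b hb
            split_ifs with h2
            · have h3 : G.s b ≠ x := fun h4 => hx (h4 ▸ h2)
              have h4 : G.t b ≠ x := fun h5 => hx (h5 ▸ (key b hb).1 h2)
              simp [inc, h3, h4]
            · rfl
        -- v is not reached: parity
        have hev : ∀ x, G.bd A x = if x = v ∧ G.Conn W' u v then 1 else 0 := by
          intro x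
          rw [hAb x, hbd' x]
          by_cases hx : G.Conn W' u x
          · rw [if_pos hx]
            have h2 : x ≠ w := fun h3 => hc (h3 ▸ hx)
            by_cases h3 : x = v
            · subst h3; simp [h2, hx]
            · simp [h2, h3]
          · rw [if_neg hx]
            by_cases h3 : x = v
            · subst h3; simp [hx]
            · simp [h3]
        have hA0 : G.EvenSet A := by
          rw [evenSet_iff_bd]; intro x
          rw [hev x]
          by_cases hv : G.Conn W' u v
          · exfalso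
            -- total sum of the boundary of A is 1, impossible
            have h2 := G.sum_bd_all A (A.image G.s ∪ A.image G.t ∪ {v}) (fun b hb =>
              ⟨Finset.mem_union_left _ (Finset.mem_union_left _ (Finset.mem_image_of_mem _ hb)),
                Finset.mem_union_left _ (Finset.mem_union_right _ (Finset.mem_image_of_mem _ hb))⟩)
            rw [Finset.sum_congr rfl (fun x _ => hev x)] at h2
            simp only [hv, and_true] at h2
            rw [Finset.sum_ite_eq' _ v, if_pos (Finset.mem_union_right _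
              (Finset.mem_singleton_self v))] at h2
            simp at h2
          · simp [hv]
        have h2 := hmin' A (Finset.filter_subset _ _) hA0
        have h3 : a ∈ A := by
          rw [hA, Finset.mem_filter]
          refine ⟨haW', ?_⟩
          rcases hau with h3 | h3
          · rw [h3]; exact Conn.refl G W' u
          · rw [key a haW', h3]; exact Conn.refl G W' u
        rw [h2] at h3; simp at h3
    rw [← hins]
    by_cases hwv : w = v
    · subst hwv
      have h2 : G.EvenSet W' := (G.evenSet_iff_bd _).2 fun x => by rw [hbd' x, add_self']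
      have h3 := hmin' W' (Finset.Subset.refl _) h2
      refine IsPath.cons hj hwu huW' huv ?_
      rw [h3]
      exact IsPath.nil w
    · refine IsPath.cons hj hwu huW' huv ?_
      refine ih W'.card ?_ rfl hwv hbd' hmin'
      rw [← hn]
      exact Finset.card_lt_card (Finset.erase_ssubset he)

/-- a minimal even set without loops is a circuit -/
theorem MinEven.isCirc {G : MG Φ ι} {C : Finset ι} (h : G.MinEven C)
    (hl : ∀ e ∈ C, G.s e ≠ G.t e) : G.IsCirc C := by
  obtain ⟨e, he⟩ := h.nonempty
  refine ⟨e, C.erase e, G.s e, G.t e, (Finset.insert_erase he).symm, Finset.notMem_erase e C,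
    G.joins_self e, hl e he, ?_⟩
  apply isPath_of_minimal (hl e he)
  · intro w
    have h2 : C.erase e = C \ {e} := by rw [Finset.sdiff_singleton_eq_erase]
    rw [h2, G.bd_sdiff (by simpa using he), h.even.bd w, bd_joins (G.joins_self e), zero_add]
  · intro Z hZ hZe
    rcases h.2.2 Z (hZ.trans (Finset.erase_subset _ _)) hZe with h2 | h2
    · exact h2
    · exfalso
      have : e ∈ C.erase e := hZ (h2 ▸ he)
      exact Finset.notMem_erase e C this

end MG

end Pool.Agent.Bond
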