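import Pool.Agent.Helper32.Bond.Lin

/-!
# Covers as finite families, the chain step (project BOND)
-/

set_option autoImplicit false

open scoped Classical symmDiff

namespace Pool.Agent.Bond

namespace MG

variable {Φ Ψ ι : Type}

/-- multiplicity of `e` in a finite family -/
noncomputable def mult {κ : Type} [Fintype κ] (C : κ → Finset ι) (e : ι) : ℕ :=
  ∑ i, (if e ∈ C i then 1 else 0)

/-- a cover of the weights `w` by minimal even sets -/
def Cov (G : MG Φ ι) (w : ι → ℕ) : Prop :=
  ∃ (κ : Type) (_ : Fintype κ) (C : κ → Finset ι), (∀ i, G.MinEven (C i)) ∧ ∀ e, mult C e = w e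

/-- a cover of the weights `w` by even sets -/
def ECov (G : MG Φ ι) (w : ι → ℕ) : Prop :=
  ∃ (κ : Type) (_ : Fintype κ) (C : κ → Finset ι), (∀ i, G.EvenSet (C i)) ∧ ∀ e, mult C e = w e

theorem list_mult : ∀ (L : List (Finset ι)) (e : ι),
    mult (fun i : Fin L.length => L.get i) e = L.countP (fun C => decide (e ∈ C)) := by
  intro L e
  induction L with
  | nil => simp [mult]
  | cons C L ih =>
    have h1 : mult (fun i : Fin (C :: L).length => (C :: L).get i) e =
        (if e ∈ C then 1 else 0) + mult (fun i : Fin L.length => L.get i) e := by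
      simp only [mult, List.length_cons]
      rw [Fin.sum_univ_succ]
      rfl
    rw [h1, ih, List.countP_cons]
    by_cases h2 : e ∈ C
    · simp [h2, add_comm]
    · simp [h2]

theorem EvenSet.decompF {G : MG Φ ι} {Z : Finset ι} (hZ : G.EvenSet Z) :
    ∃ (n : ℕ) (C : Fin n → Finset ι), (∀ i, G.MinEven (C i)) ∧
      ∀ e, mult C e = if e ∈ Z then 1 else 0 := by
  obtain ⟨L, hL, hc⟩ := hZ.decomp
  exact ⟨L.length, fun i => L.get i, fun i => hL _ (List.get_mem _ _), fun e => by
    rw [list_mult, hc e]⟩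

theorem ECov.cov {G : MG Φ ι} {w : ι → ℕ} (h : G.ECov w) : G.Cov w := by
  obtain ⟨κ, hκ, C, hC, hm⟩ := h
  choose n D hD hDm using fun i => (hC i).decompF
  refine ⟨(Σ i, Fin (n i)), inferInstance, fun p => D p.1 p.2, fun p => hD p.1 p.2, fun e => ?_⟩
  rw [← hm e]
  simp only [mult]
  rw [Fintype.sum_sigma]
  apply Finset.sum_congr rfl
  intro i _
  exact hDm i e

theorem ECov.add {G : MG Φ ι} {w w' : ι → ℕ} (h : G.ECov w) (h' : G.ECov w') :
    G.ECov (fun e => w e + w' e) := by
  obtain ⟨κ, hκ, C, hC, hm⟩ := h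
  obtain ⟨κ', hκ', C', hC', hm'⟩ := h'
  refine ⟨κ ⊕ κ', inferInstance, Sum.elim C C', ?_, fun e => ?_⟩
  · rintro (i | i)
    · exact hC i
    · exact hC' i
  · change mult (Sum.elim C C') e = w e + w' e
    rw [← hm e, ← hm' e]
    simp only [mult, Fintype.sum_sum_type, Sum.elim_inl, Sum.elim_inr]
    rfl

theorem Cov.ecov {G : MG Φ ι} {w : ι → ℕ} (h : G.Cov w) : G.ECov w := by
  obtain ⟨κ, hκ, C, hC, hm⟩ := h
  exact ⟨κ, hκ, C, fun i => (hC i).even, hm⟩

theorem ecov_one {G : MG Φ ι} {Z : Finset ι} (h : G.EvenSet Z) :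
    G.ECov (fun e => if e ∈ Z then 1 else 0) :=
  ⟨Unit, inferInstance, fun _ => Z, fun _ => h, fun e => by simp [mult]⟩

theorem ECov.congr {G : MG Φ ι} {w w' : ι → ℕ} (h : G.ECov w) (he : ∀ e, w e = w' e) :
    G.ECov w' := by
  have : w = w' := funext he
  rwa [this] at h

theorem ecov_sub {G : MG Φ ι} {κ : Type} [Fintype κ] (C : κ → Finset ι)
    (hC : ∀ i, G.EvenSet (C i)) (J : Finset κ) :
    G.ECov (fun e => ∑ i ∈ J, if e ∈ C i then 1 else 0) := by
  refine ⟨{i // i ∈ J}, inferInstance, fun i => C i.1, fun i => hC i.1, fun e => ?_⟩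
  simp only [mult]
  rw [Finset.sum_coe_sort J (fun i => if e ∈ C i then 1 else 0)]

/-- the parity sum of a subfamily -/
theorem odd_part {G : MG Φ ι} {κ : Type} (C : κ → Finset ι) (hC : ∀ i, G.EvenSet (C i))
    (E : Finset ι) (hE : ∀ i, C i ⊆ E) (J : Finset κ) :
    G.EvenSet (E.filter (fun e => Odd (∑ i ∈ J, if e ∈ C i then 1 else 0))) := by
  rw [evenSet_iff_bd]
  intro v
  have h1 : G.bd (E.filter (fun e => Odd (∑ i ∈ J, if e ∈ C i then 1 else 0))) v =
      ∑ i ∈ J, G.bd (C i) v := by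
    simp only [MG.bd]
    rw [Finset.sum_filter]
    have h2 : ∀ i ∈ J, ∑ e ∈ C i, (G.inc e v : ZMod 2) =
        ∑ e ∈ E, if e ∈ C i then (G.inc e v : ZMod 2) else 0 := by
      intro i _
      rw [Finset.sum_ite_mem, Finset.inter_eq_right.2 (hE i)]
    rw [Finset.sum_congr rfl h2, Finset.sum_comm]
    apply Finset.sum_congr rfl
    intro e _
    have h3 : ∑ i ∈ J, (if e ∈ C i then (G.inc e v : ZMod 2) else 0) =
        ((∑ i ∈ J, if e ∈ C i then 1 else 0 : ℕ) : ZMod 2) * (G.inc e v : ZMod 2) := by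
      rw [Nat.cast_sum, Finset.sum_mul]
      apply Finset.sum_congr rfl
      intro i _
      split_ifs <;> simp
    rw [h3]
    by_cases h4 : Odd (∑ i ∈ J, if e ∈ C i then 1 else 0)
    · rw [if_pos h4, ZMod.natCast_eq_one_iff_odd.2 h4, one_mul]
    · rw [if_neg h4]
      rw [Nat.not_odd_iff_even] at h4
      rw [ZMod.natCast_eq_zero_iff_even.2 h4, zero_mul]
  rw [h1]
  exact Finset.sum_eq_zero fun i _ => (hC i).bd v

/-- the intersection graph of a family of edge sets -/
def IG (G : MG Φ ι) {κ : Type} (C : κ → Finset ι) : SimpleGraph κ where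
  Adj i j := i ≠ j ∧ ∃ v, v ∈ G.vs (C i) ∧ v ∈ G.vs (C j)
  symm := ⟨fun _ _ h => ⟨h.1.symm, h.2.imp fun _ hv => ⟨hv.2, hv.1⟩⟩⟩
  loopless := ⟨fun _ h => h.1 rfl⟩

theorem mem_vs_left {G : MG Φ ι} {S : Finset ι} {e : ι} (he : e ∈ S) {u v : Φ}
    (h : G.Joins e u v) : u ∈ G.vs S := by
  refine ⟨e, he, ?_⟩
  rcases h with ⟨h1, _⟩ | ⟨_, h1⟩
  · exact Or.inl h1
  · exact Or.inr h1

theorem mem_vs_right {G : MG Φ ι} {S : Finset ι} {e : ι} (he : e ∈ S) {u v : Φ}
    (h : G.Joins e u v) : v ∈ G.vs S := mem_vs_left he h.symm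

theorem ig_step {G : MG Φ ι} {κ : Type} {C : κ → Finset ι} {i j : κ} {v : Φ}
    (hi : v ∈ G.vs (C i)) (hj : v ∈ G.vs (C j)) : (G.IG C).Reachable i j := by
  by_cases h : i = j
  · subst h; exact SimpleGraph.Reachable.refl _
  · exact SimpleGraph.Adj.reachable ⟨h, v, hi, hj⟩

theorem ig_reach {G : MG Φ ι} {κ : Type} {C : κ → Finset ι} {U : Finset ι}
    (hU : ∀ e ∈ U, ∃ i, e ∈ C i) {x : Φ} {a : κ} (ha : x ∈ G.vs (C a)) {v : Φ}
    (h : G.Conn U x v) : ∀ b, v ∈ G.vs (C b) → (G.IG C).Reachable a b := by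
  induction h with
  | refl => intro b hb; exact ig_step ha hb
  | @tail u v _ huv ih =>
    intro b hb
    obtain ⟨e, he, hj⟩ := huv
    obtain ⟨c, hc⟩ := hU e he
    exact (ih c (mem_vs_left hc hj)).trans (ig_step (mem_vs_right hc hj) hb)

theorem walk_conn {G : MG Φ ι} {κ : Type} {C : κ → Finset ι} (hC : ∀ i, G.MinEven (C i))
    {U : Finset ι} {a b : κ} (p : (G.IG C).Walk a b) (hp : ∀ i ∈ p.support, C i ⊆ U) :
    ∀ x ∈ G.vs (C a), ∀ y ∈ G.vs (C b), G.Conn U x y := by
  induction p with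
  | nil =>
    intro x hx y hy
    exact ((hC _).conn hx hy).mono (hp _ (by simp))
  | @cons u v w huv q ih =>
    intro x hx y hy
    have hu : C u ⊆ U := hp u (by rw [SimpleGraph.Walk.support_cons]; exact List.mem_cons_self)
    have hq : ∀ i ∈ q.support, C i ⊆ U := fun i hi =>
      hp i (by rw [SimpleGraph.Walk.support_cons]; exact List.mem_cons_of_mem _ hi)
    have hz : ∃ z, z ∈ G.vs (C u) ∧ z ∈ G.vs (C v) := huv.2
    obtain ⟨z, hz, hz'⟩ := hz
    have h1 : G.Conn U x z := ((hC u).conn hx hz).mono hu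
    exact h1.trans (ih hq z hz' y hy)

/-- The chain lemma: a family of minimal even sets whose union connects `x` and `y`.  Either some
proper subfamily connects them, or the family can be 2-coloured so that two members containing a
common edge get different colours. -/
theorem chain_lemma {G : MG Φ ι} {κ : Type} [Fintype κ] {C : κ → Finset ι}
    (hC : ∀ i, G.MinEven (C i)) {U : Finset ι} (hU : ∀ e ∈ U, ∃ i, e ∈ C i) {x y : Φ}
    (hxy : G.Conn U x y) (hne : x ≠ y) :
    (∃ J : Finset κ, J ≠ Finset.univ ∧ ∀ U' : Finset ι, (∀ i ∈ J, C i ⊆ U') → G.Conn U' x y) ∨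
    (∃ col : κ → Prop, ∀ i j e, i ≠ j → e ∈ C i → e ∈ C j → ¬ (col i ↔ col j)) := by
  -- members at x and y
  have hx : ∃ a, x ∈ G.vs (C a) := by
    rcases Relation.ReflTransGen.cases_head hxy with h | ⟨u, ⟨e, he, hj⟩, _⟩
    · exact absurd h hne
    · obtain ⟨a, ha⟩ := hU e he
      exact ⟨a, mem_vs_left ha hj⟩
  have hy : ∃ b, y ∈ G.vs (C b) := by
    rcases Relation.ReflTransGen.cases_tail hxy with h | ⟨u, _, ⟨e, he, hj⟩⟩
    · exact absurd h.symm hne
    · obtain ⟨a, ha⟩ := hU e he
      exact ⟨a, mem_vs_right ha hj⟩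
  obtain ⟨a, ha⟩ := hx
  obtain ⟨b, hb⟩ := hy
  have hr : (G.IG C).Reachable a b := ig_reach hU ha hxy b hb
  obtain ⟨p, hp⟩ := hr.exists_walk_length_eq_dist
  by_cases hall : ∀ i, i ∈ p.support
  · right
    -- distances along the geodesic
    have hdist : ∀ i, ∃ k ≤ p.length, p.getVert k = i ∧ (G.IG C).dist a i = k := by
      intro i
      obtain ⟨k, hk, hkl⟩ := SimpleGraph.Walk.mem_support_iff_exists_getVert.1 (hall i)
      refine ⟨k, hkl, hk, ?_⟩
      subst hk
      have h1 : (G.IG C).dist a (p.getVert k) ≤ k := by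
        have := SimpleGraph.dist_le (p.take k)
        exact this.trans (by simp [SimpleGraph.Walk.take_length])
      have h2 : (G.IG C).dist (p.getVert k) b ≤ p.length - k := by
        have := SimpleGraph.dist_le (p.drop k)
        exact this.trans (by simp [SimpleGraph.Walk.drop_length])
      have h3 : (G.IG C).dist a b ≤
          (G.IG C).dist a (p.getVert k) + (G.IG C).dist (p.getVert k) b := by
        have hri : (G.IG C).Reachable a (p.getVert k) := (p.take k).reachable
        have hrb : (G.IG C).Reachable (p.getVert k) b := (p.drop k).reachable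
        obtain ⟨q1, hq1⟩ := hri.exists_walk_length_eq_dist
        obtain ⟨q2, hq2⟩ := hrb.exists_walk_length_eq_dist
        rw [← hq1, ← hq2, ← SimpleGraph.Walk.length_append]
        exact SimpleGraph.dist_le _
      omega
    refine ⟨fun i => Even ((G.IG C).dist a i), fun i j e hij hei hej hcol => ?_⟩
    obtain ⟨k, hk, hki, hkd⟩ := hdist i
    obtain ⟨l, hl, hlj, hld⟩ := hdist j
    have hadj : (G.IG C).Adj i j :=
      ⟨hij, G.s e, mem_vs_left hei (G.joins_self e), mem_vs_left hej (G.joins_self e)⟩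
    have hkl : k ≠ l := by
      rintro rfl
      exact hij (hki.symm.trans hlj)
    have h1 : (G.IG C).dist a j ≤ (G.IG C).dist a i + 1 := by
      have hri : (G.IG C).Reachable a i := by
        have := (p.take k).reachable
        rwa [hki] at this
      obtain ⟨q1, hq1⟩ := hri.exists_walk_length_eq_dist
      have := SimpleGraph.dist_le (q1.append (SimpleGraph.Walk.cons hadj SimpleGraph.Walk.nil))
      rw [SimpleGraph.Walk.length_append] at this
      simpa [hq1] using this
    have h2 : (G.IG C).dist a i ≤ (G.IG C).dist a j + 1 := by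
      have hri : (G.IG C).Reachable a j := by
        have := (p.take l).reachable
        rwa [hlj] at this
      obtain ⟨q1, hq1⟩ := hri.exists_walk_length_eq_dist
      have := SimpleGraph.dist_le (q1.append (SimpleGraph.Walk.cons hadj.symm SimpleGraph.Walk.nil))
      rw [SimpleGraph.Walk.length_append] at this
      simpa [hq1] using this
    have hcol' : Even ((G.IG C).dist a i) ↔ Even ((G.IG C).dist a j) := hcol
    rw [hkd, hld] at h1 h2 hcol'
    simp only [Nat.even_iff] at hcol'
    omega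
  · left
    push Not at hall
    obtain ⟨c, hc⟩ := hall
    refine ⟨p.support.toFinset, ?_, fun U' hU' => ?_⟩
    · intro h
      apply hc
      have : c ∈ p.support.toFinset := by rw [h]; exact Finset.mem_univ c
      simpa using this
    · exact walk_conn hC p (fun i hi => hU' i (by simpa using hi)) x ha y hb

end MG

end Pool.Agent.Bond
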