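import Pool.Agent.Helper32.Bond.Ev

/-!
# Linear algebra over `ZMod 2` for the cover theorem (project BOND)
-/

set_option autoImplicit false

open scoped Classical symmDiff

namespace Pool.Agent.Bond

namespace MG

variable {Φ Ψ ι : Type}

/-- additivity of sums over symmetric differences -/
theorem sum_symmDiff (φ : ι → ZMod 2) (A B : Finset ι) :
    ∑ e ∈ A ∆ B, φ e = ∑ e ∈ A, φ e + ∑ e ∈ B, φ e := by
  have h1 : A ∆ B = (A \ B) ∪ (B \ A) := by
    ext e; simp [Finset.mem_symmDiff]
  have h2 : Disjoint (A \ B) (B \ A) := by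
    rw [Finset.disjoint_left]; intro e he he'
    simp only [Finset.mem_sdiff] at he he'; exact he.2 he'.1
  rw [h1, Finset.sum_union h2]
  have h3 : ∑ e ∈ A, φ e = ∑ e ∈ A \ B, φ e + ∑ e ∈ A ∩ B, φ e := by
    rw [← Finset.sum_union (Finset.disjoint_sdiff_inter A B), Finset.sdiff_union_inter]
  have h4 : ∑ e ∈ B, φ e = ∑ e ∈ B \ A, φ e + ∑ e ∈ A ∩ B, φ e := by
    rw [Finset.inter_comm, ← Finset.sum_union (Finset.disjoint_sdiff_inter B A),
      Finset.sdiff_union_inter]
  rw [h3, h4]
  have h5 := add_self' (∑ e ∈ A ∩ B, φ e)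
  linear_combination -h5

/-- T-joins: a finite vertex set which meets every component evenly is a boundary. -/
theorem tjoin (G : MG Φ ι) (O : Finset ι) : ∀ T : Finset Φ,
    (∀ u ∈ T, Even (T.filter (fun v => G.Conn O u v)).card) →
    ∃ Y ⊆ O, ∀ v, G.bd Y v = if v ∈ T then 1 else 0 := by
  intro T
  induction hn : T.card using Nat.strong_induction_on generalizing T with
  | _ n ih =>
    intro hT
    by_cases h0 : T = ∅
    · subst h0
      exact ⟨∅, Finset.empty_subset _, fun v => by simp⟩
    obtain ⟨u, hu⟩ := Finset.nonempty_iff_ne_empty.2 h0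
    have huf : u ∈ T.filter (fun v => G.Conn O u v) := by
      rw [Finset.mem_filter]; exact ⟨hu, Conn.refl G O u⟩
    -- a second vertex in the component
    have h1 : ∃ u' ∈ T, u' ≠ u ∧ G.Conn O u u' := by
      by_contra hno
      push Not at hno
      have h2 : T.filter (fun v => G.Conn O u v) = {u} := by
        ext v
        simp only [Finset.mem_filter, Finset.mem_singleton]
        constructor
        · rintro ⟨hv, hc⟩
          by_contra hne
          exact hno v hv hne hc
        · rintro rfl; exact ⟨hu, Conn.refl G O v⟩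
      have h3 := hT u hu
      rw [h2] at h3
      simp at h3
    obtain ⟨u', hu', hne, hc⟩ := h1
    set T' := (T.erase u).erase u' with hT'
    have hmem : ∀ v, v ∈ T' ↔ v ∈ T ∧ v ≠ u ∧ v ≠ u' := by
      intro v; simp only [hT', Finset.mem_erase]; tauto
    have hcard : T'.card + 2 = T.card := by
      rw [hT', Finset.card_erase_of_mem (Finset.mem_erase.2 ⟨hne, hu'⟩),
        Finset.card_erase_of_mem hu]
      have : 2 ≤ T.card := by
        have : ({u, u'} : Finset Φ) ⊆ T := by
          intro v hv; simp only [Finset.mem_insert, Finset.mem_singleton] at hv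
          rcases hv with rfl | rfl <;> assumption
        calc 2 = ({u, u'} : Finset Φ).card := (Finset.card_pair (Ne.symm hne)).symm
          _ ≤ T.card := Finset.card_le_card this
      omega
    have hT'e : ∀ v ∈ T', Even (T'.filter (fun x => G.Conn O v x)).card := by
      intro v hv
      have hvT := ((hmem v).1 hv).1
      have h2 := hT v hvT
      by_cases hvu : G.Conn O v u
      · have hvu' : G.Conn O v u' := hvu.trans hc
        have h3 : T.filter (fun x => G.Conn O v x) =
            insert u (insert u' (T'.filter (fun x => G.Conn O v x))) := by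
          ext x
          simp only [Finset.mem_filter, Finset.mem_insert, hmem]
          constructor
          · rintro ⟨hx, hcx⟩
            by_cases h4 : x = u
            · exact Or.inl h4
            by_cases h5 : x = u'
            · exact Or.inr (Or.inl h5)
            exact Or.inr (Or.inr ⟨⟨hx, h4, h5⟩, hcx⟩)
          · rintro (rfl | rfl | ⟨⟨hx, _, _⟩, hcx⟩)
            · exact ⟨hu, hvu⟩
            · exact ⟨hu', hvu'⟩
            · exact ⟨hx, hcx⟩
        have h4 : u' ∉ T'.filter (fun x => G.Conn O v x) := by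
          simp only [Finset.mem_filter, hmem]; tauto
        have h5 : u ∉ insert u' (T'.filter (fun x => G.Conn O v x)) := by
          simp only [Finset.mem_insert, Finset.mem_filter, hmem]
          rintro (h | ⟨⟨_, h, _⟩, _⟩)
          · exact hne h.symm
          · exact h rfl
        rw [h3, Finset.card_insert_of_notMem h5, Finset.card_insert_of_notMem h4] at h2
        rw [Nat.even_iff] at h2 ⊢; omega
      · have hvu' : ¬ G.Conn O v u' := fun h => hvu (h.trans hc.symm)
        have h3 : T.filter (fun x => G.Conn O v x) = T'.filter (fun x => G.Conn O v x) := by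
          ext x
          simp only [Finset.mem_filter, hmem]
          constructor
          · rintro ⟨hx, hcx⟩
            refine ⟨⟨hx, ?_, ?_⟩, hcx⟩
            · rintro rfl; exact hvu hcx
            · rintro rfl; exact hvu' hcx
          · rintro ⟨⟨hx, _, _⟩, hcx⟩; exact ⟨hx, hcx⟩
        rw [← h3]; exact h2
    obtain ⟨Y, hY, hYb⟩ := ih T'.card (by omega) T' rfl hT'e
    obtain ⟨P, hP, hPb⟩ := hc.join
    refine ⟨Y ∆ P, ?_, fun v => ?_⟩
    · intro e he
      rw [Finset.mem_symmDiff] at he
      rcases he with ⟨he, _⟩ | ⟨he, _⟩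
      · exact hY he
      · exact hP he
    · rw [bd_symmDiff, hYb v, hPb v]
      by_cases h4 : v = u
      · subst h4
        have : v ∉ T' := by rw [hmem]; tauto
        simp [this, hu, Ne.symm hne]
      by_cases h5 : v = u'
      · subst h5
        have : v ∉ T' := by rw [hmem]; tauto
        simp [this, hu', hne]
      by_cases h6 : v ∈ T
      · have : v ∈ T' := (hmem v).2 ⟨h6, h4, h5⟩
        simp [this, h4, h5, h6]
      · have : v ∉ T' := fun h => h6 ((hmem v).1 h).1
        simp [this, h4, h5, h6]

theorem bd_zero_or_one (x : ZMod 2) : x = 0 ∨ x = 1 := by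
  revert x; decide

/-- Fredholm alternative: either `F` lies in an even subset of `S`, or there is an odd cut of `S`
contained in `F`. -/
theorem odd_cut (G : MG Φ ι) (S F : Finset ι) (hF : F ⊆ S)
    (h : ¬ ∃ Z ⊆ S, G.EvenSet Z ∧ F ⊆ Z) :
    ∃ g : Φ → Prop, G.cutSet S g ⊆ F ∧ Odd (G.cutSet S g).card := by
  set T : Finset Φ := (F.image G.s ∪ F.image G.t).filter (fun v => G.bd F v = 1) with hT
  have hTm : ∀ v, v ∈ T ↔ G.bd F v = 1 := by
    intro v
    rw [hT, Finset.mem_filter]
    constructor
    · exact fun h => h.2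
    · intro h1
      refine ⟨?_, h1⟩
      by_contra h2
      rw [Finset.mem_union, not_or, Finset.mem_image, Finset.mem_image] at h2
      obtain ⟨h2, h3⟩ := h2
      push Not at h2 h3
      have : G.bd F v = 0 := by
        apply Finset.sum_eq_zero
        intro e he
        simp [inc, h2 e he, h3 e he]
      rw [this] at h1
      exact absurd h1 (by decide)
  by_cases hall : ∀ u ∈ T, Even (T.filter (fun v => G.Conn (S \ F) u v)).card
  · exfalso
    obtain ⟨Y, hY, hYb⟩ := G.tjoin (S \ F) T hall
    apply h
    have hd : Disjoint F Y := by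
      rw [Finset.disjoint_left]; intro e he he'
      exact (Finset.mem_sdiff.1 (hY he')).2 he
    refine ⟨F ∪ Y, ?_, ?_, Finset.subset_union_left⟩
    · intro e he
      rcases Finset.mem_union.1 he with h1 | h1
      · exact hF h1
      · exact (Finset.mem_sdiff.1 (hY h1)).1
    · rw [evenSet_iff_bd]; intro v
      rw [G.bd_union_disjoint hd, hYb v]
      by_cases hv : v ∈ T
      · rw [(hTm v).1 hv, if_pos hv]; decide
      · rw [if_neg hv, add_zero]
        rcases bd_zero_or_one (G.bd F v) with h1 | h1
        · exact h1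
        · exact absurd ((hTm v).2 h1) hv
  · push Not at hall
    obtain ⟨u, hu, hodd⟩ := hall
    refine ⟨fun v => G.Conn (S \ F) u v, ?_, ?_⟩
    · intro e he
      rw [mem_cutSet] at he
      by_contra hne
      exact G.conn_not_crosses (S \ F) u (Finset.mem_sdiff.2 ⟨he.1, hne⟩) he.2
    · have hsub : G.cutSet S (fun v => G.Conn (S \ F) u v) =
          F.filter (fun e => G.Crosses e (fun v => G.Conn (S \ F) u v)) := by
        ext e
        rw [mem_cutSet, Finset.mem_filter]
        constructor
        · rintro ⟨h1, h2⟩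
          refine ⟨?_, h2⟩
          by_contra hne
          exact G.conn_not_crosses (S \ F) u (Finset.mem_sdiff.2 ⟨h1, hne⟩) h2
        · rintro ⟨h1, h2⟩; exact ⟨hF h1, h2⟩
      rw [hsub]
      have h1 := G.sum_bd F (fun v => G.Conn (S \ F) u v) (F.image G.s ∪ F.image G.t) (fun e he =>
        ⟨Finset.mem_union_left _ (Finset.mem_image_of_mem _ he),
          Finset.mem_union_right _ (Finset.mem_image_of_mem _ he)⟩)
      have h2 : ∑ v ∈ (F.image G.s ∪ F.image G.t).filter (fun v => G.Conn (S \ F) u v), G.bd F v =
          ((T.filter (fun v => G.Conn (S \ F) u v)).card : ZMod 2) := by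
        have h3 : T.filter (fun v => G.Conn (S \ F) u v) =
            ((F.image G.s ∪ F.image G.t).filter (fun v => G.Conn (S \ F) u v)).filter
              (fun v => G.bd F v = 1) := by
          ext v; simp only [hT, Finset.mem_filter]; tauto
        rw [h3, Finset.card_filter, Nat.cast_sum]
        apply Finset.sum_congr rfl
        intro v _
        rcases bd_zero_or_one (G.bd F v) with h4 | h4
        · rw [h4]; simp
        · rw [h4]; simp
      rw [h2] at h1
      rw [← Nat.not_even_iff_odd]
      intro he
      apply hodd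
      rw [← ZMod.natCast_eq_zero_iff_even] at he ⊢
      rw [h1]; exact he

/-- A set of edges meeting every even set in an even number of edges is a cut. -/
theorem cut_of_orthogonal (G : MG Φ ι) (S K : Finset ι) (hK : K ⊆ S)
    (h : ∀ Z ⊆ S, G.EvenSet Z → Even (K ∩ Z).card) : ∃ g : Φ → Prop, K = G.cutSet S g := by
  -- a root for every component
  let st : Setoid Φ := ⟨fun u v => G.Conn S u v, ⟨fun u => Conn.refl G S u,
    fun h => h.symm, fun h h' => h.trans h'⟩⟩
  let root : Φ → Φ := fun v => (Quotient.out (Quotient.mk st v))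
  have hroot : ∀ v, G.Conn S (root v) v := fun v => Quotient.exact (Quotient.out_eq (Quotient.mk st v))
  have hroot2 : ∀ u v, G.Conn S u v → root u = root v := by
    intro u v huv
    have : Quotient.mk st u = Quotient.mk st v := Quotient.sound huv
    simp only [root, this]
  choose P hP hPb using fun v => (hroot v).join
  let φ : ι → ZMod 2 := fun e => if e ∈ K then 1 else 0
  have hφ : ∀ Z : Finset ι, ∑ e ∈ Z, φ e = ((K ∩ Z).card : ZMod 2) := by
    intro Z
    simp only [φ]
    rw [Finset.sum_ite_mem, Finset.sum_const, nsmul_eq_mul, mul_one, Finset.inter_comm]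
  refine ⟨fun v => ∑ e ∈ P v, φ e = 1, ?_⟩
  ext e
  rw [mem_cutSet]
  constructor
  · intro he
    refine ⟨hK he, ?_⟩
    set a := G.s e
    set b := G.t e
    have hr : root a = root b := hroot2 a b (Conn.edge (hK he))
    have h1 : G.EvenSet ((P a ∆ P b) ∆ {e}) := by
      rw [evenSet_iff_bd]; intro w
      rw [bd_symmDiff, bd_symmDiff, hPb a w, hPb b w, bd_joins (G.joins_self e), hr]
      have h3 : ((if w = root b then 1 else 0) + (if w = root b then 1 else 0) : ZMod 2) = 0 :=
        add_self' _
      have h4 : ((if w = a then 1 else 0) + (if w = a then 1 else 0) : ZMod 2) = 0 := add_self' _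
      have h5 : ((if w = b then 1 else 0) + (if w = b then 1 else 0) : ZMod 2) = 0 := add_self' _
      linear_combination h3 + h4 + h5
    have h2 : (P a ∆ P b) ∆ {e} ⊆ S := by
      intro x hx
      simp only [Finset.mem_symmDiff, Finset.mem_singleton] at hx
      rcases hx with ⟨⟨hx, _⟩ | ⟨hx, _⟩, _⟩ | ⟨hx, _⟩
      · exact hP a hx
      · exact hP b hx
      · rw [hx]; exact hK he
    have h3 := h _ h2 h1
    rw [← ZMod.natCast_eq_zero_iff_even, ← hφ, sum_symmDiff, sum_symmDiff,
      Finset.sum_singleton] at h3
    have h4 : φ e = 1 := by simp [φ, he]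
    rw [h4] at h3
    intro h5
    change (∑ e ∈ P a, φ e = 1 ↔ ∑ e ∈ P b, φ e = 1) at h5
    rcases bd_zero_or_one (∑ e ∈ P a, φ e) with h6 | h6 <;>
      rcases bd_zero_or_one (∑ e ∈ P b, φ e) with h7 | h7 <;>
      rw [h6, h7] at h3 h5 <;> revert h3 h5 <;> decide
  · rintro ⟨heS, hcr⟩
    by_contra hne
    apply hcr
    set a := G.s e
    set b := G.t e
    have hr : root a = root b := hroot2 a b (Conn.edge heS)
    have h1 : G.EvenSet ((P a ∆ P b) ∆ {e}) := by
      rw [evenSet_iff_bd]; intro w
      rw [bd_symmDiff, bd_symmDiff, hPb a w, hPb b w, bd_joins (G.joins_self e), hr]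
      have h3 : ((if w = root b then 1 else 0) + (if w = root b then 1 else 0) : ZMod 2) = 0 :=
        add_self' _
      have h4 : ((if w = a then 1 else 0) + (if w = a then 1 else 0) : ZMod 2) = 0 := add_self' _
      have h5 : ((if w = b then 1 else 0) + (if w = b then 1 else 0) : ZMod 2) = 0 := add_self' _
      linear_combination h3 + h4 + h5
    have h2 : (P a ∆ P b) ∆ {e} ⊆ S := by
      intro x hx
      simp only [Finset.mem_symmDiff, Finset.mem_singleton] at hx
      rcases hx with ⟨⟨hx, _⟩ | ⟨hx, _⟩, _⟩ | ⟨hx, _⟩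
      · exact hP a hx
      · exact hP b hx
      · rw [hx]; exact heS
    have h3 := h _ h2 h1
    rw [← ZMod.natCast_eq_zero_iff_even, ← hφ, sum_symmDiff, sum_symmDiff,
      Finset.sum_singleton] at h3
    have h4 : φ e = 0 := by simp [φ, hne]
    rw [h4] at h3
    change (∑ e ∈ P a, φ e = 1 ↔ ∑ e ∈ P b, φ e = 1)
    rcases bd_zero_or_one (∑ e ∈ P a, φ e) with h6 | h6 <;>
      rcases bd_zero_or_one (∑ e ∈ P b, φ e) with h7 | h7 <;>
      rw [h6, h7] at h3 ⊢ <;> revert h3 <;> decide

end MG

end Pool.Agent.Bond
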